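import Pool.Agent.H601R2.PCG.Forest

/-!
# Good families as solutions of a constraint problem on the `K₄`s
-/

set_option autoImplicit false

namespace Pool.Agent.H601R2.PCG

open Pool.Agent.Helper448.PWalk Pool.Agent.Helper448.PDec Relation

/-- The constraint on the value `S` of one edge `x y` lying in a `K₄`. -/
structure Opt {V : Type} (G : SimpleGraph V) (x y : V) (S : Set V) : Prop where
  left : x ∈ S
  right : y ∈ S
  clique : G.IsClique S
  dom : (∀ u ∈ S, u = x ∨ u = y) ∨
    ∀ z, G.Adj z x → G.Adj z y → z ∈ S ∨ ∃ u ∈ S, u ≠ x ∧ u ≠ y ∧ G.Adj z u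

/-- The constraints inside one `K₄`. -/
structure Loc {V : Type} (G : SimpleGraph V) (Q : Finset V) (k : Sym2 V → Set V) : Prop where
  opt : ∀ x ∈ Q, ∀ y ∈ Q, x ≠ y → Opt G x y (k s(x, y))
  mono : ∀ x ∈ Q, ∀ y ∈ Q, x ≠ y → ∀ a ∈ Q, ∀ b ∈ Q, a ≠ b → a ∈ k s(x, y) → b ∈ k s(x, y) →
    k s(a, b) ⊆ k s(x, y)
  tri : ∀ a ∈ Q, ∀ b ∈ Q, ∀ c ∈ Q, a ≠ b → b ≠ c → a ≠ c →
    ∃ v, v ∈ k s(a, b) ∧ v ∈ k s(b, c) ∧ v ∈ k s(a, c)

/-- The constraint on the triangles which lie in no `K₄`. -/
def TriCond {V : Type} (G : SimpleGraph V) : Prop :=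
  ∀ a b c, G.Adj a b → G.Adj b c → G.Adj a c → (∃ d, G.Adj d a ∧ G.Adj d b ∧ G.Adj d c) ∨
    (∀ z, G.Adj z a → G.Adj z b → z = c) ∨ (∀ z, G.Adj z b → G.Adj z c → z = a) ∨
    (∀ z, G.Adj z a → G.Adj z c → z = b)

variable {V : Type} {G : SimpleGraph V}

theorem no5 (hG : NoK5 G) {a b c d e : V} (hab : G.Adj a b) (hac : G.Adj a c) (hbc : G.Adj b c)
    (hda : G.Adj d a) (hdb : G.Adj d b) (hdc : G.Adj d c)
    (hea : G.Adj e a) (heb : G.Adj e b) (hec : G.Adj e c) (hde : G.Adj d e) : False := by
  refine k5_of_sep hG (T := {a, b, c}) rfl hab hbc hac ?_ ?_ hde.ne (Rch.single ?_ ?_ hde)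
  · rintro x (rfl | rfl | rfl) <;> assumption
  · rintro x (rfl | rfl | rfl) <;> assumption
  · rintro (rfl | rfl | rfl)
    exacts [hda.ne rfl, hdb.ne rfl, hdc.ne rfl]
  · rintro (rfl | rfl | rfl)
    exacts [hea.ne rfl, heb.ne rfl, hec.ne rfl]

/-- A good family dominates common neighbours. -/
theorem Good.dom {K : V → V → Set V} (h : Good G K) {a b : V} (hab : G.Adj a b) :
    Opt G a b (K a b) := by
  refine ⟨h.left a b hab, h.right hab, h.complete a b hab, ?_⟩
  by_cases hS : ∀ u ∈ K a b, u = a ∨ u = b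
  · exact Or.inl hS
  right
  push Not at hS
  obtain ⟨u, hu, hua, hub⟩ := hS
  intro z hza hzb
  obtain ⟨v, hv1, hv2, hv3⟩ := h.tri a b z hab hzb.symm hza.symm
  by_cases hva : v = a
  · subst hva
    have hz : z ∈ K b z := h.right hzb.symm
    have hb : b ∈ K b z := h.left _ _ hzb.symm
    have hsub := h.mono b z v b hzb.symm hv2 hb hab.ne
    have hu' := hsub hu
    by_cases hzu : z = u
    · exact Or.inl (hzu ▸ hu)
    · exact Or.inr ⟨u, hu, hua, hub, h.complete b z hzb.symm hz hu' hzu⟩
  by_cases hvb : v = b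
  · subst hvb
    have hz : z ∈ K a z := h.right hza.symm
    have ha : a ∈ K a z := h.left _ _ hza.symm
    have hsub := h.mono a z a v hza.symm ha hv3 hab.ne
    have hu' := hsub hu
    by_cases hzu : z = u
    · exact Or.inl (hzu ▸ hu)
    · exact Or.inr ⟨u, hu, hua, hub, h.complete a z hza.symm hz hu' hzu⟩
  by_cases hvz : v = z
  · subst hvz
    exact Or.inl hv1
  · exact Or.inr ⟨v, hv1, hva, hvb, h.complete a z hza.symm (h.right hza.symm) hv3 (Ne.symm hvz)⟩

theorem Good.triCond {K : V → V → Set V} (h : Good G K) : TriCond G := by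
  intro a b c hab hbc hac
  by_cases hK : ∃ d, G.Adj d a ∧ G.Adj d b ∧ G.Adj d c
  · exact Or.inl hK
  right
  -- an edge whose value contains the third vertex
  have key : ∀ a b c, G.Adj a b → G.Adj b c → G.Adj a c →
      (¬ ∃ d, G.Adj d a ∧ G.Adj d b ∧ G.Adj d c) → c ∈ K a b →
      ∀ z, G.Adj z a → G.Adj z b → z = c := by
    intro a b c hab hbc hac hK hc z hza hzb
    by_contra hzc
    have hcl := h.complete a b hab
    have ha := h.left a b hab
    have hb := h.right hab
    have huc : ∀ u ∈ K a b, u = a ∨ u = b ∨ u = c := by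
      intro u hu
      by_contra hne
      push Not at hne
      exact hK ⟨u, hcl hu ha hne.1, hcl hu hb hne.2.1, hcl hu hc hne.2.2⟩
    rcases (h.dom hab).dom with h1 | h1
    · rcases h1 c hc with rfl | rfl
      · exact hac.ne rfl
      · exact hbc.ne rfl
    rcases h1 z hza hzb with h2 | ⟨u, hu, hua, hub, hzu⟩
    · rcases huc z h2 with rfl | rfl | rfl
      · exact hza.ne rfl
      · exact hzb.ne rfl
      · exact hzc rfl
    · rcases huc u hu with rfl | rfl | rfl
      · exact hua rfl
      · exact hub rfl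
      · exact hK ⟨z, hza, hzb, hzu⟩
  obtain ⟨v, hv1, hv2, hv3⟩ := h.tri a b c hab hbc hac
  by_cases hva : v = a
  · subst hva
    right; left
    intro z hzb hzc
    refine key b c v hbc hac.symm hab.symm ?_ hv2 z hzb hzc
    rintro ⟨d, h1, h2, h3⟩
    exact hK ⟨d, h3, h1, h2⟩
  by_cases hvb : v = b
  · subst hvb
    right; right
    intro z hza hzc
    refine key a c v hac hbc.symm hab ?_ hv3 z hza hzc
    rintro ⟨d, h1, h2, h3⟩
    exact hK ⟨d, h1, h3, h2⟩
  by_cases hvc : v = c
  · subst hvc
    left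
    exact key a b v hab hbc hac hK hv1
  · exfalso
    exact hK ⟨v, h.complete a b hab hv1 (h.left _ _ hab) hva,
      h.complete a b hab hv1 (h.right hab) hvb, h.complete b c hbc hv2 (h.right hbc) hvc⟩

theorem Good.loc {K : V → V → Set V} (h : Good G K) {Q : Finset V} (hQ : G.IsNClique 4 Q) :
    Loc G Q (Sym2.lift ⟨K, h.symm⟩) := by
  have hadj : ∀ x ∈ Q, ∀ y ∈ Q, x ≠ y → G.Adj x y := fun x hx y hy hxy =>
    hQ.1 (by exact_mod_cast hx) (by exact_mod_cast hy) hxy
  refine ⟨?_, ?_, ?_⟩
  · intro x hx y hy hxy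
    exact h.dom (hadj x hx y hy hxy)
  · intro x hx y hy hxy a ha b hb hab h1 h2
    exact h.mono x y a b (hadj x hx y hy hxy) h1 h2 hab
  · intro a ha b hb c hc hab hbc hac
    exact h.tri a b c (hadj a ha b hb hab) (hadj b hb c hc hbc) (hadj a ha c hc hac)

/-! ### Explicit `K₄`s -/

section
variable [DecidableEq V]

theorem isK4 {a b c d : V} (hab : G.Adj a b) (hac : G.Adj a c) (had : G.Adj a d)
    (hbc : G.Adj b c) (hbd : G.Adj b d) (hcd : G.Adj c d) :
    G.IsNClique 4 ({a, b, c, d} : Finset V) := by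
  constructor
  · intro x hx y hy hxy
    simp only [Finset.coe_insert, Finset.coe_singleton, Set.mem_insert_iff,
      Set.mem_singleton_iff] at hx hy
    rcases hx with rfl | rfl | rfl | rfl <;> rcases hy with rfl | rfl | rfl | rfl <;>
      first
        | exact absurd rfl hxy
        | assumption
        | (apply SimpleGraph.Adj.symm; assumption)
  · rw [Finset.card_insert_of_notMem, Finset.card_insert_of_notMem, Finset.card_pair hcd.ne]
    · simp [hbc.ne, hbd.ne]
    · simp [hab.ne, hac.ne, had.ne]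

theorem exists_two {Q : Finset V} (hQ : G.IsNClique 4 Q) {x y : V} (hx : x ∈ Q) (hy : y ∈ Q)
    (hxy : x ≠ y) : ∃ p q, Q = {x, y, p, q} ∧ p ≠ q ∧ p ≠ x ∧ p ≠ y ∧ q ≠ x ∧ q ≠ y := by
  have h1 : ((Q.erase x).erase y).card = 2 := by
    rw [Finset.card_erase_of_mem, Finset.card_erase_of_mem hx, hQ.2]
    exact Finset.mem_erase.2 ⟨hxy.symm, hy⟩
  obtain ⟨p, q, hpq, he⟩ := Finset.card_eq_two.1 h1
  have hp : p ∈ (Q.erase x).erase y := by rw [he]; simp
  have hq : q ∈ (Q.erase x).erase y := by rw [he]; simp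
  rw [Finset.mem_erase, Finset.mem_erase] at hp hq
  refine ⟨p, q, ?_, hpq, hp.2.1, hp.1, hq.2.1, hq.1⟩
  rw [← he, Finset.insert_erase (Finset.mem_erase.2 ⟨hxy.symm, hy⟩), Finset.insert_erase hx]

theorem shr_of {x y z a b : V} (h1 : G.IsNClique 4 ({x, y, z, a} : Finset V))
    (h2 : G.IsNClique 4 ({x, y, z, b} : Finset V)) (hab : a ≠ b) :
    Shr G ({x, y, z, a} : Finset V) ({x, y, z, b} : Finset V) := by
  refine ⟨h1, h2, ?_⟩
  have hle : (({x, y, z, a} : Finset V) ∩ ({x, y, z, b} : Finset V)) = {x, y, z} := by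
    ext w
    simp only [Finset.mem_inter, Finset.mem_insert, Finset.mem_singleton]
    constructor
    · rintro ⟨h3 | h3 | h3 | h3, h4 | h4 | h4 | h4⟩ <;> first | tauto | skip
      exact absurd (h3.symm.trans h4) hab
    · tauto
  rw [hle]
  have hc := h1.2
  have hle2 : ({x, y, z, a} : Finset V).card ≤ ({x, y, z} : Finset V).card + 1 := by
    have : ({x, y, z, a} : Finset V) = insert a {x, y, z} := by
      ext w; simp only [Finset.mem_insert, Finset.mem_singleton]; tauto
    rw [this]
    exact Finset.card_insert_le _ _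
  have hle3 : ({x, y, z} : Finset V).card ≤ 3 := Finset.card_le_three
  omega

/-- The alternatives for a nontrivial value of an edge of a `K₄`. -/
theorem opt_cases (hG : NoK5 G) {Q : Finset V} (hQ : G.IsNClique 4 Q) {x y : V} (hx : x ∈ Q)
    (hy : y ∈ Q) (hxy : x ≠ y) {S : Set V} (hS : Opt G x y S) :
    (∀ u ∈ S, u = x ∨ u = y) ∨
    (∃ u, u ≠ x ∧ u ≠ y ∧ u ∈ Q ∧ S = {x, y, u}) ∨
    (∃ Q' : Finset V, G.IsNClique 4 Q' ∧ S = (Q' : Set V) ∧ x ∈ Q' ∧ y ∈ Q' ∧
      ReflTransGen (Shr G) Q Q') := by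
  by_cases h0 : ∀ u ∈ S, u = x ∨ u = y
  · exact Or.inl h0
  right
  have hdom := hS.dom.resolve_left h0
  push Not at h0
  obtain ⟨u, hu, hux, huy⟩ := h0
  obtain ⟨p, q, hQe, hpq, hpx, hpy, hqx, hqy⟩ := exists_two hQ hx hy hxy
  have hadj : ∀ {s t}, s ∈ Q → t ∈ Q → s ≠ t → G.Adj s t := fun hs ht hst =>
    adj_of_clique hQ hs ht hst
  have hpQ : p ∈ Q := by rw [hQe]; simp
  have hqQ : q ∈ Q := by rw [hQe]; simp
  have axy := hadj hx hy hxy
  have apx := hadj hpQ hx hpx
  have apy := hadj hpQ hy hpy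
  have aqx := hadj hqQ hx hqx
  have aqy := hadj hqQ hy hqy
  have apq := hadj hpQ hqQ hpq
  have aux := hS.clique hu hS.left hux
  have auy := hS.clique hu hS.right huy
  by_cases h3 : ∀ v ∈ S, v = x ∨ v = y ∨ v = u
  · left
    refine ⟨u, hux, huy, ?_, ?_⟩
    · by_contra huQ
      have hup : p ≠ u := fun e => huQ (e ▸ hpQ)
      have huq : q ≠ u := fun e => huQ (e ▸ hqQ)
      have hw : ∀ w, G.Adj w x → G.Adj w y → w ≠ x → w ≠ y → w ≠ u → G.Adj w u := by
        intro w h1 h2 h4 h5 h6
        rcases hdom w h1 h2 with h7 | ⟨u', hu', h8, h9, h10⟩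
        · rcases h3 w h7 with h | h | h
          · exact absurd h h4
          · exact absurd h h5
          · exact absurd h h6
        · rcases h3 u' hu' with h | h | h
          · exact absurd h h8
          · exact absurd h h9
          · exact h ▸ h10
      have apu := hw p apx apy hpx hpy hup
      have aqu := hw q aqx aqy hqx hqy huq
      exact no5 hG axy aux.symm auy.symm apx apy apu aqx aqy aqu apq
    · ext v
      simp only [Set.mem_insert_iff, Set.mem_singleton_iff]
      constructor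
      · exact h3 v
      · rintro (rfl | rfl | rfl)
        exacts [hS.left, hS.right, hu]
  · right
    push Not at h3
    obtain ⟨v, hv, hvx, hvy, hvu⟩ := h3
    have avx := hS.clique hv hS.left hvx
    have avy := hS.clique hv hS.right hvy
    have avu := hS.clique hv hu hvu
    have hS4 : S = (({x, y, u, v} : Finset V) : Set V) := by
      ext w
      simp only [Finset.coe_insert, Finset.coe_singleton, Set.mem_insert_iff,
        Set.mem_singleton_iff]
      constructor
      · intro hw
        by_contra hne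
        push Not at hne
        exact no5 hG axy aux.symm auy.symm avx avy avu
          (hS.clique hw hS.left hne.1) (hS.clique hw hS.right hne.2.1)
          (hS.clique hw hu hne.2.2.1) (hS.clique hv hw hne.2.2.2.symm)
      · rintro (rfl | rfl | rfl | rfl)
        exacts [hS.left, hS.right, hu, hv]
    have hK : G.IsNClique 4 ({x, y, u, v} : Finset V) :=
      isK4 axy aux.symm avx.symm auy.symm avy.symm avu.symm
    refine ⟨{x, y, u, v}, hK, hS4, by simp, by simp, ?_⟩
    have hQ' : G.IsNClique 4 ({x, y, p, q} : Finset V) := hQe ▸ hQ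
    -- membership in `S`
    have hmemS : ∀ w, w ∈ S ↔ w = x ∨ w = y ∨ w = u ∨ w = v := by
      intro w
      rw [hS4]
      simp
    -- exchanging the last two vertices
    have hswap : ∀ a b : V, ({x, y, a, b} : Finset V) = {x, y, b, a} := by
      intro a b
      ext w
      simp only [Finset.mem_insert, Finset.mem_singleton]
      tauto
    -- one step when one of the vertices is common
    have hone : ∀ p q u v : V, G.IsNClique 4 ({x, y, p, q} : Finset V) →
        G.IsNClique 4 ({x, y, u, v} : Finset V) → p = u →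
        ReflTransGen (Shr G) ({x, y, p, q} : Finset V) {x, y, u, v} := by
      rintro p q u v h1 h2 rfl
      by_cases hqv : q = v
      · rw [hqv]
      · exact ReflTransGen.single (shr_of h1 h2 hqv)
    have hone' : ∀ p q u v : V, G.IsNClique 4 ({x, y, p, q} : Finset V) →
        G.IsNClique 4 ({x, y, u, v} : Finset V) → (p = u ∨ p = v ∨ q = u ∨ q = v) →
        ReflTransGen (Shr G) ({x, y, p, q} : Finset V) {x, y, u, v} := by
      intro p q u v h1 h2 h
      rcases h with h | h | h | h
      · exact hone p q u v h1 h2 h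
      · rw [hswap u v] at h2 ⊢
        exact hone p q v u h1 h2 h
      · rw [hswap p q] at h1 ⊢
        exact hone q p u v h1 h2 h
      · rw [hswap p q] at h1 ⊢
        rw [hswap u v] at h2 ⊢
        exact hone q p v u h1 h2 h
    rw [hQe]
    by_cases hc : p = u ∨ p = v ∨ q = u ∨ q = v
    · exact hone' p q u v hQ' hK hc
    push Not at hc
    have hpS : p ∉ S := by
      rw [hmemS]; push Not; exact ⟨hpx, hpy, hc.1, hc.2.1⟩
    have hqS : q ∉ S := by
      rw [hmemS]; push Not; exact ⟨hqx, hqy, hc.2.2.1, hc.2.2.2⟩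
    have hw : ∀ w, G.Adj w x → G.Adj w y → w ∉ S → G.Adj w u ∨ G.Adj w v := by
      intro w h1 h2 h3
      rcases hdom w h1 h2 with h7 | ⟨u', hu', h8, h9, h10⟩
      · exact absurd h7 h3
      · rcases (hmemS u').1 hu' with h | h | h | h
        · exact absurd h h8
        · exact absurd h h9
        · exact Or.inl (h ▸ h10)
        · exact Or.inr (h ▸ h10)
    rcases hw p apx apy hpS with hpu | hpv
    · have h1 : G.IsNClique 4 ({x, y, p, u} : Finset V) :=
        isK4 axy apx.symm aux.symm apy.symm auy.symm hpu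
      refine (ReflTransGen.single (shr_of hQ' h1 ?_)).trans (hone' p u u v h1 hK ?_)
      · exact hc.2.2.1
      · exact Or.inr (Or.inr (Or.inl rfl))
    · have h1 : G.IsNClique 4 ({x, y, p, v} : Finset V) :=
        isK4 axy apx.symm avx.symm apy.symm avy.symm hpv
      refine (ReflTransGen.single (shr_of hQ' h1 ?_)).trans (hone' p v u v h1 hK ?_)
      · exact hc.2.2.2
      · exact Or.inr (Or.inr (Or.inr rfl))

/-- The value of an edge lying in two unrelated `K₄`s is the edge itself. -/
theorem dead (hG : NoK5 G) {Q Q' : Finset V} (hQ : G.IsNClique 4 Q) (hQ' : G.IsNClique 4 Q')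
    (hn : ¬ ReflTransGen (Shr G) Q Q') {x y : V} (hxy : x ≠ y) (hx : x ∈ Q) (hy : y ∈ Q)
    (hx' : x ∈ Q') (hy' : y ∈ Q') {S : Set V} (hS : Opt G x y S) : S = {v | v = x ∨ v = y} := by
  have hfin : (∀ u ∈ S, u = x ∨ u = y) → S = {v | v = x ∨ v = y} := by
    intro h
    ext v
    constructor
    · exact h v
    · rintro (rfl | rfl)
      exacts [hS.left, hS.right]
  rcases opt_cases hG hQ hx hy hxy hS with h1 | ⟨u, hux, huy, huQ, hu⟩ | ⟨Q1, h1, h2, -, -, h3⟩
  · exact hfin h1
  · rcases opt_cases hG hQ' hx' hy' hxy hS with h1 | ⟨u', hux', huy', huQ', hu'⟩ |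
      ⟨Q1, h1, h2, -, -, h3⟩
    · exact hfin h1
    · exfalso
      apply hn
      have huu : u = u' := by
        have : u ∈ S := by rw [hu]; simp
        rw [hu'] at this
        rcases this with h | h | h
        · exact absurd h hux
        · exact absurd h huy
        · exact h
      by_cases hQQ : Q = Q'
      · rw [hQQ]
      · refine ReflTransGen.single ⟨hQ, hQ', ?_⟩
        have hT : ({x, y, u} : Finset V) ⊆ Q ∩ Q' := by
          intro w hw
          simp only [Finset.mem_insert, Finset.mem_singleton] at hw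
          rw [Finset.mem_inter]
          rcases hw with rfl | rfl | rfl
          · exact ⟨hx, hx'⟩
          · exact ⟨hy, hy'⟩
          · exact ⟨huQ, huu ▸ huQ'⟩
        have hT3 : ({x, y, u} : Finset V).card = 3 := by
          rw [Finset.card_insert_of_notMem, Finset.card_pair huy.symm]
          simp [hxy, hux.symm]
        have h4 := Finset.card_le_card hT
        have h5 : (Q ∩ Q').card ≤ 4 := by
          rw [← hQ.2]; exact Finset.card_le_card Finset.inter_subset_left
        have h6 : (Q ∩ Q').card ≠ 4 := by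
          intro h6
          apply hQQ
          have e1 : Q ∩ Q' = Q := Finset.eq_of_subset_of_card_le Finset.inter_subset_left (by
            rw [h6, hQ.2])
          have e2 : Q ∩ Q' = Q' := Finset.eq_of_subset_of_card_le Finset.inter_subset_right (by
            rw [h6, hQ'.2])
          rw [← e1, e2]
        omega
    · exfalso
      have h4 : Q1.card = 4 := h1.2
      have h5 : (Q1 : Set V) = (({x, y, u} : Finset V) : Set V) := by
        rw [← h2, hu]; simp
      have h6 : Q1 = {x, y, u} := by exact_mod_cast h5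
      have h7 : ({x, y, u} : Finset V).card ≤ 3 := Finset.card_le_three
      rw [h6] at h4
      omega
  · rcases opt_cases hG hQ' hx' hy' hxy hS with h1 | ⟨u', hux', huy', huQ', hu'⟩ |
      ⟨Q2, h1', h2', -, -, h3'⟩
    · exact hfin h1
    · exfalso
      have h4 : Q1.card = 4 := h1.2
      have h5 : (Q1 : Set V) = (({x, y, u'} : Finset V) : Set V) := by
        rw [← h2, hu']; simp
      have h6 : Q1 = {x, y, u'} := by exact_mod_cast h5
      have h7 : ({x, y, u'} : Finset V).card ≤ 3 := Finset.card_le_three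
      rw [h6] at h4
      omega
    · exfalso
      apply hn
      have h5 : Q1 = Q2 := by
        have : (Q1 : Set V) = Q2 := by rw [← h2, ← h2']
        exact_mod_cast this
      exact h3.trans (h5 ▸ rtg_symm h3')

/-! ### The equivalence -/

/-- `a` and `b` lie in a common `K₄`. -/
def InK4 (G : SimpleGraph V) (a b : V) : Prop := ∃ Q, G.IsNClique 4 Q ∧ a ∈ Q ∧ b ∈ Q

theorem good_iff (hG : NoK5 G) :
    (∃ K, Good G K) ↔ TriCond G ∧ ∃ k, ∀ Q, G.IsNClique 4 Q → Loc G Q k := by
  classical
  constructor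
  · rintro ⟨K, hK⟩
    exact ⟨hK.triCond, _, fun Q hQ => hK.loc hQ⟩
  rintro ⟨hT, k, hk⟩
  have hInsymm : ∀ {a b}, InK4 G a b → InK4 G b a := fun ⟨Q, h, h1, h2⟩ => ⟨Q, h, h2, h1⟩
  -- an edge of a `K₄` has its value inside a `K₄` containing it
  have hval : ∀ {a b : V}, G.Adj a b → InK4 G a b → ∃ Q, G.IsNClique 4 Q ∧ a ∈ Q ∧ b ∈ Q ∧
      ∀ v ∈ k s(a, b), v ∈ Q := by
    rintro a b hab ⟨Q, hQ, ha, hb⟩
    rcases opt_cases hG hQ ha hb hab.ne ((hk Q hQ).opt a ha b hb hab.ne) with h1 |
      ⟨u, hux, huy, huQ, hu⟩ | ⟨Q1, h1, h2, h4, h5, h3⟩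
    · refine ⟨Q, hQ, ha, hb, fun v hv => ?_⟩
      rcases h1 v hv with rfl | rfl <;> assumption
    · refine ⟨Q, hQ, ha, hb, fun v hv => ?_⟩
      rw [hu] at hv
      rcases hv with rfl | rfl | rfl <;> assumption
    · refine ⟨Q1, h1, h4, h5, fun v hv => ?_⟩
      rw [h2] at hv
      exact_mod_cast hv
  set K : V → V → Set V := fun a b => if InK4 G a b then k s(a, b) else
    {v | v = a ∨ v = b ∨ (G.Adj v a ∧ G.Adj v b ∧ ∀ z, G.Adj z a → G.Adj z b → z = v)} with hK
  have hK1 : ∀ {a b}, InK4 G a b → K a b = k s(a, b) := fun h => by simp [hK, h]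
  have hK2 : ∀ {a b v}, ¬ InK4 G a b → (v ∈ K a b ↔ v = a ∨ v = b ∨
      (G.Adj v a ∧ G.Adj v b ∧ ∀ z, G.Adj z a → G.Adj z b → z = v)) := fun h => by
    simp [hK, h]
  have hopt : ∀ {a b}, G.Adj a b → InK4 G a b → Opt G a b (k s(a, b)) := by
    rintro a b hab ⟨Q, hQ, ha, hb⟩
    exact (hk Q hQ).opt a ha b hb hab.ne
  have hsymm : ∀ a b, K a b = K b a := by
    intro a b
    by_cases h : InK4 G a b
    · rw [hK1 h, hK1 (hInsymm h), Sym2.eq_swap]
    · have h' : ¬ InK4 G b a := fun h' => h (hInsymm h')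
      ext v
      rw [hK2 h, hK2 h']
      constructor
      · rintro (h1 | h1 | ⟨h1, h2, h3⟩)
        · exact Or.inr (Or.inl h1)
        · exact Or.inl h1
        · exact Or.inr (Or.inr ⟨h2, h1, fun z hz1 hz2 => h3 z hz2 hz1⟩)
      · rintro (h1 | h1 | ⟨h1, h2, h3⟩)
        · exact Or.inr (Or.inl h1)
        · exact Or.inl h1
        · exact Or.inr (Or.inr ⟨h2, h1, fun z hz1 hz2 => h3 z hz2 hz1⟩)
  -- value of an edge of a `K₄` lying in a triangle outside the `K₄`s
  have hout : ∀ {a b c : V}, G.Adj a b → ¬ InK4 G a b → G.Adj c a → G.Adj c b →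
      (∀ z, G.Adj z a → G.Adj z b → z = c) → K a c ⊆ {a, b, c} := by
    intro a b c hab hn hca hcb huniq v hv
    by_cases hac : InK4 G a c
    · rw [hK1 hac] at hv
      rcases (hopt hca.symm hac).dom with h1 | h1
      · rcases h1 v hv with rfl | rfl <;> simp
      · exfalso
        obtain ⟨Q, hQ, haQ, hcQ, hsub⟩ := hval hca.symm hac
        rcases h1 b hab.symm hcb.symm with h2 | ⟨u, hu, hua, huc, hbu⟩
        · exact hn ⟨Q, hQ, haQ, hsub b h2⟩
        · have := huniq u (adj_of_clique hQ (hsub u hu) haQ hua) hbu.symm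
          exact huc this
    · rw [hK2 hac] at hv
      rcases hv with h1 | h1 | ⟨h1, h2, h3⟩
      · simp [h1]
      · simp [h1]
      · have := h3 b hab.symm hcb.symm
        simp [← this]
  refine ⟨K, hsymm, ?_, ?_, ?_, ?_⟩
  · intro a b hab
    by_cases h : InK4 G a b
    · rw [hK1 h]
      exact (hopt hab h).left
    · rw [hK2 h]
      exact Or.inl rfl
  · intro a b hab
    by_cases h : InK4 G a b
    · rw [hK1 h]
      exact (hopt hab h).clique
    · intro u hu v hv huv
      rw [hK2 h] at hu hv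
      rcases hu with rfl | rfl | ⟨h1, h2, h3⟩ <;> rcases hv with rfl | rfl | ⟨h1', h2', h3'⟩ <;>
        first
          | exact absurd rfl huv
          | assumption
          | (apply SimpleGraph.Adj.symm; assumption)
          | exact absurd (h3' _ h1 h2) huv
  · intro a b x y hab hx hy hxy
    by_cases h : InK4 G a b
    · obtain ⟨Q, hQ, haQ, hbQ, hsub⟩ := hval hab h
      rw [hK1 h] at hx hy ⊢
      have hxQ := hsub x hx
      have hyQ := hsub y hy
      rw [hK1 ⟨Q, hQ, hxQ, hyQ⟩]
      exact (hk Q hQ).mono a haQ b hbQ hab.ne x hxQ y hyQ hxy hx hy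
    · -- the unique common neighbour
      have hab' : ∀ {u v : V}, u ∈ ({a, b} : Set V) → v ∈ ({a, b} : Set V) → u ≠ v →
          K u v = K a b := by
        rintro u v (rfl | rfl) (rfl | rfl) huv
        · exact absurd rfl huv
        · rfl
        · exact hsymm _ _
        · exact absurd rfl huv
      by_cases hc : ∃ c, G.Adj c a ∧ G.Adj c b ∧ ∀ z, G.Adj z a → G.Adj z b → z = c
      · obtain ⟨c, hca, hcb, huniq⟩ := hc
        have hKab : K a b = {a, b, c} := by
          ext v
          rw [hK2 h]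
          simp only [Set.mem_insert_iff, Set.mem_singleton_iff]
          constructor
          · rintro (h1 | h1 | ⟨h1, h2, -⟩)
            · exact Or.inl h1
            · exact Or.inr (Or.inl h1)
            · exact Or.inr (Or.inr (huniq v h1 h2))
          · rintro (h1 | h1 | h1)
            · exact Or.inl h1
            · exact Or.inr (Or.inl h1)
            · subst h1
              exact Or.inr (Or.inr ⟨hca, hcb, huniq⟩)
        have h1 : K a c ⊆ {a, b, c} := hout hab h hca hcb huniq
        have h2 : K b c ⊆ {a, b, c} := by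
          have := hout hab.symm (fun h' => h (hInsymm h')) hcb hca
            (fun z hz1 hz2 => huniq z hz2 hz1)
          refine this.trans ?_
          intro v hv
          simp only [Set.mem_insert_iff, Set.mem_singleton_iff] at hv ⊢
          tauto
        rw [hKab] at hx hy ⊢
        rcases hx with rfl | rfl | rfl <;> rcases hy with rfl | rfl | rfl
        · exact absurd rfl hxy
        · exact hKab.le
        · exact h1
        · rw [hsymm]; exact hKab.le
        · exact absurd rfl hxy
        · exact h2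
        · rw [hsymm]; exact h1
        · rw [hsymm]; exact h2
        · exact absurd rfl hxy
      · have hx' : x ∈ ({a, b} : Set V) := by
          rw [hK2 h] at hx
          rcases hx with h1 | h1 | h1
          · simp [h1]
          · simp [h1]
          · exact absurd ⟨x, h1⟩ hc
        have hy' : y ∈ ({a, b} : Set V) := by
          rw [hK2 h] at hy
          rcases hy with h1 | h1 | h1
          · simp [h1]
          · simp [h1]
          · exact absurd ⟨y, h1⟩ hc
        rw [hab' hx' hy' hxy]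
  · intro a b c hab hbc hac
    by_cases hd : ∃ d, G.Adj d a ∧ G.Adj d b ∧ G.Adj d c
    · obtain ⟨d, hda, hdb, hdc⟩ := hd
      have hQ : G.IsNClique 4 ({a, b, c, d} : Finset V) :=
        isK4 hab hac hda.symm hbc hdb.symm hdc.symm
      rw [hK1 ⟨_, hQ, by simp, by simp⟩, hK1 ⟨_, hQ, by simp, by simp⟩,
        hK1 ⟨_, hQ, by simp, by simp⟩]
      exact (hk _ hQ).tri a (by simp) b (by simp) c (by simp) hab.ne hbc.ne hac.ne
    · have hnot : ∀ {u v w : V}, G.Adj u v → (∀ z, G.Adj z u → G.Adj z v → z = w) →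
          ¬ InK4 G u v := by
        rintro u v w huv huniq ⟨Q, hQ, hu, hv⟩
        obtain ⟨p, q, hQe, hpq, hpx, hpy, hqx, hqy⟩ := exists_two hQ hu hv huv.ne
        have hpQ : p ∈ Q := by rw [hQe]; simp
        have hqQ : q ∈ Q := by rw [hQe]; simp
        apply hpq
        rw [huniq p (adj_of_clique hQ hpQ hu hpx) (adj_of_clique hQ hpQ hv hpy),
          huniq q (adj_of_clique hQ hqQ hu hqx) (adj_of_clique hQ hqQ hv hqy)]
      have hin : ∀ {u v w : V}, G.Adj u v → G.Adj w u → G.Adj w v →
          (∀ z, G.Adj z u → G.Adj z v → z = w) → w ∈ K u v := by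
        intro u v w huv hwu hwv huniq
        rw [hK2 (hnot huv huniq)]
        exact Or.inr (Or.inr ⟨hwu, hwv, huniq⟩)
      have hl : ∀ {a b}, G.Adj a b → a ∈ K a b := by
        intro a b hab
        by_cases h : InK4 G a b
        · rw [hK1 h]
          exact (hopt hab h).left
        · rw [hK2 h]
          exact Or.inl rfl
      have hr : ∀ {a b}, G.Adj a b → b ∈ K a b := by
        intro a b hab
        rw [hsymm]
        exact hl hab.symm
      rcases (hT a b c hab hbc hac).resolve_left hd with h1 | h1 | h1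
      · exact ⟨c, hin hab hac.symm hbc.symm h1, hr hbc, hr hac⟩
      · exact ⟨a, hl hab, hin hbc hab hac h1, hl hac⟩
      · exact ⟨b, hr hab, hl hbc, hin hac hab.symm hbc h1⟩

end

end Pool.Agent.H601R2.PCG
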