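import Pool.Agent.H601R2.PCG.AlgDefs
import Pool.Agent.H601R2.PCG.CSP

/-!
# Correctness of the algorithm
-/

set_option autoImplicit false

namespace Pool.Agent.H601R2.PCG

open Pool.Agent.NPC Pool.Agent.Helper448.PDec Relation

/-! ### The tests as propositions -/

theorem subB_iff {S S' : List ℕ} : subB S S' = true ↔ ∀ v ∈ S, v ∈ S' := by
  simp [subB]

theorem keyB_iff {e e' : Ent} : keyB e e' = true ↔
    (e.1.1 = e'.1.1 ∧ e.1.2 = e'.1.2) ∨ (e.1.1 = e'.1.2 ∧ e.1.2 = e'.1.1) := by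
  simp [keyB]

theorem symB_iff {st st' : State} : symB st st' = true ↔ ∀ e ∈ ents st, ∀ e' ∈ ents st',
    ((e.1.1 = e'.1.1 ∧ e.1.2 = e'.1.2) ∨ (e.1.1 = e'.1.2 ∧ e.1.2 = e'.1.1)) →
    ∀ v, v ∈ e.2 ↔ v ∈ e'.2 := by
  simp only [symB, List.all_eq_true, imp_iff, keyB_iff, Bool.and_eq_true, subB_iff]
  constructor
  · intro h e he e' he' hk v
    exact ⟨(h e he e' he' hk).1 v, (h e he e' he' hk).2 v⟩
  · intro h e he e' he' hk
    exact ⟨fun v => (h e he e' he' hk v).1, fun v => (h e he e' he' hk v).2⟩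

theorem monoB_iff {st : State} : monoB st = true ↔ ∀ e ∈ ents st, ∀ e' ∈ ents st,
    e.1.1 ≠ e.1.2 → e'.1.1 ≠ e'.1.2 → e'.1.1 ∈ e.2 → e'.1.2 ∈ e.2 → ∀ v ∈ e'.2, v ∈ e.2 := by
  simp only [monoB, List.all_eq_true, imp_iff, Bool.and_eq_true, subB_iff, Bool.not_eq_true',
    decide_eq_false_iff_not, decide_eq_true_eq]
  constructor
  · intro h e he e' he' h1 h2 h3 h4
    exact h e he e' he' ⟨⟨⟨h1, h2⟩, h3⟩, h4⟩
  · rintro h e he e' he' ⟨⟨⟨h1, h2⟩, h3⟩, h4⟩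
    exact h e he e' he' h1 h2 h3 h4

theorem triB_iff {st : State} : triB st = true ↔ ∀ e ∈ ents st, ∀ e' ∈ ents st, ∀ e'' ∈ ents st,
    e.1.2 = e'.1.1 → e.1.1 = e''.1.1 → e'.1.2 = e''.1.2 → e.1.1 ≠ e.1.2 → e'.1.1 ≠ e'.1.2 →
    e''.1.1 ≠ e''.1.2 → ∃ v ∈ e.2, v ∈ e'.2 ∧ v ∈ e''.2 := by
  simp only [triB, List.all_eq_true, imp_iff, Bool.and_eq_true, List.any_eq_true,
    Bool.not_eq_true', decide_eq_false_iff_not, decide_eq_true_eq]
  constructor
  · intro h e he e' he' e'' he'' h1 h2 h3 h4 h5 h6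
    exact h e he e' he' e'' he'' ⟨⟨⟨⟨⟨h1, h2⟩, h3⟩, h4⟩, h5⟩, h6⟩
  · rintro h e he e' he' e'' he'' ⟨⟨⟨⟨⟨h1, h2⟩, h3⟩, h4⟩, h5⟩, h6⟩
    exact h e he e' he' e'' he'' h1 h2 h3 h4 h5 h6

theorem optB_iff0 {m : List (List Bool)} {x y : ℕ} {S : List ℕ} : optB m x y S = true ↔
    x ∈ S ∧ y ∈ S ∧ (∀ u ∈ S, ∀ v ∈ S, u = v ∨ adjB m u v = true) ∧
    ((∀ u ∈ S, u = x ∨ u = y) ∨ ∀ z ∈ verts m, adjB m z x = true → adjB m z y = true →
      z ∈ S ∨ ∃ u ∈ S, u ≠ x ∧ u ≠ y ∧ adjB m z u = true) := by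
  simp only [optB, List.all_eq_true, imp_iff, Bool.and_eq_true, List.any_eq_true, Bool.or_eq_true,
    Bool.not_eq_true', decide_eq_false_iff_not, decide_eq_true_eq]
  constructor
  · rintro ⟨⟨⟨h1, h2⟩, h3⟩, h4⟩
    refine ⟨h1, h2, h3, h4.imp id ?_⟩
    intro h z hz hx hy
    refine (h z hz ⟨hx, hy⟩).imp id ?_
    rintro ⟨u, hu, ⟨hux, huy⟩, hzu⟩
    exact ⟨u, hu, hux, huy, hzu⟩
  · rintro ⟨h1, h2, h3, h4⟩
    refine ⟨⟨⟨h1, h2⟩, h3⟩, h4.imp id ?_⟩
    rintro h z hz ⟨hx, hy⟩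
    refine (h z hz hx hy).imp id ?_
    rintro ⟨u, hu, hux, huy, hzu⟩
    exact ⟨u, hu, ⟨hux, huy⟩, hzu⟩

/-! ### Entries -/

theorem mem_ents_key {st : State} {e : Ent} (h : e ∈ ents st) : e.1.1 ∈ st.1 ∧ e.1.2 ∈ st.1 := by
  have h1 := (List.of_mem_zip (a := e.1) (b := e.2) (by simpa [ents] using h)).1
  exact List.mem_product.1 (by simpa using h1)

theorem mem_ents_val {st : State} {e : Ent} (h : e ∈ ents st) : e.2 ∈ st.2 :=
  (List.of_mem_zip (a := e.1) (b := e.2) (by simpa [ents] using h)).2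

theorem exists_ent {st : State} (h4 : st.1.length = 4) (h16 : st.2.length = 16) {x y : ℕ}
    (hx : x ∈ st.1) (hy : y ∈ st.1) : ∃ S, ((x, y), S) ∈ ents st := by
  have h1 : (x, y) ∈ st.1 ×ˢ st.1 := List.mem_product.2 ⟨hx, hy⟩
  obtain ⟨i, hi, he⟩ := List.getElem_of_mem h1
  have h2 : (st.1 ×ˢ st.1).length = 16 := by
    have := List.length_product st.1 st.1
    rw [h4] at this
    simpa using this
  have hi2 : i < st.2.length := by omega
  refine ⟨st.2[i], ?_⟩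
  have h3 : i < (ents st).length := by
    simp only [ents, List.length_zip]
    omega
  have h4 : (ents st)[i] = ((x, y), st.2[i]) := by
    simp only [ents, List.getElem_zip]
    rw [he]
  rw [← h4]
  exact List.getElem_mem h3

theorem zip_map_self {α β : Type} (g : α → β) : ∀ l : List α,
    l.zip (l.map g) = l.map fun x => (x, g x)
  | [] => rfl
  | a :: l => by simp [zip_map_self g l]

/-- The state of a table given by a function. -/
def stOf (g : ℕ × ℕ → List ℕ) (q : List ℕ) : State := (q, (q ×ˢ q).map g)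

theorem mem_ents_stOf {g : ℕ × ℕ → List ℕ} {q : List ℕ} {e : Ent} (h : e ∈ ents (stOf g q)) :
    e.1.1 ∈ q ∧ e.1.2 ∈ q ∧ e.2 = g e.1 := by
  have h1 : e ∈ (q ×ˢ q).map fun x => (x, g x) := by
    rw [← zip_map_self]
    exact h
  obtain ⟨p, hp, rfl⟩ := List.mem_map.1 h1
  have := List.mem_product.1 (show (p.1, p.2) ∈ q ×ˢ q from hp)
  exact ⟨this.1, this.2, rfl⟩

/-! ### The graph -/

variable {n : ℕ} (G : SimpleGraph (Fin n))

theorem length_adjMatrix : (R671.adjMatrix G).length = n := by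
  simp [R671.adjMatrix]

theorem mem_verts {i : ℕ} : i ∈ verts (R671.adjMatrix G) ↔ i < n := by
  simp [verts, length_adjMatrix]

theorem adjB_iff (x y : Fin n) : adjB (R671.adjMatrix G) x y = true ↔ G.Adj x y := by
  classical
  have h1 : (R671.adjMatrix G).getD x [] = List.ofFn fun j => decide (G.Adj x j) := by
    unfold R671.adjMatrix
    rw [List.getD_eq_getElem _ _ (by simp)]
    simp
  unfold adjB
  rw [h1, List.getD_eq_getElem _ _ (by simp)]
  simp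

/-- The set of vertices listed. -/
def toS (n : ℕ) (S : List ℕ) : Set (Fin n) := {v | (v : ℕ) ∈ S}

theorem optB_iff {x y : Fin n} {S : List ℕ} (hS : ∀ v ∈ S, v < n) :
    optB (R671.adjMatrix G) x y S = true ↔ Opt G x y (toS n S) := by
  rw [optB_iff0]
  constructor
  · rintro ⟨h1, h2, h3, h4⟩
    refine ⟨h1, h2, ?_, ?_⟩
    · intro u hu v hv huv
      rcases h3 u hu v hv with h | h
      · exact absurd (Fin.ext h) huv
      · exact (adjB_iff G u v).1 h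
    · rcases h4 with h | h
      · left
        intro u hu
        exact (h u hu).imp Fin.ext Fin.ext
      · right
        intro z hzx hzy
        rcases h z ((mem_verts G).2 z.2) ((adjB_iff G z x).2 hzx) ((adjB_iff G z y).2 hzy) with
          h5 | ⟨u, hu, hux, huy, hzu⟩
        · exact Or.inl h5
        · refine Or.inr ⟨⟨u, hS u hu⟩, hu, ?_, ?_, (adjB_iff G z ⟨u, hS u hu⟩).1 hzu⟩
          · rintro rfl; exact hux rfl
          · rintro rfl; exact huy rfl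
  · rintro ⟨h1, h2, h3, h4⟩
    refine ⟨h1, h2, ?_, ?_⟩
    · intro u hu v hv
      by_cases huv : u = v
      · exact Or.inl huv
      · right
        refine (adjB_iff G ⟨u, hS u hu⟩ ⟨v, hS v hv⟩).2 (h3 hu hv ?_)
        intro h
        exact huv (Fin.mk.inj_iff.1 h)
    · rcases h4 with h | h
      · left
        intro u hu
        rcases h ⟨u, hS u hu⟩ hu with h | h
        · exact Or.inl (congrArg Fin.val h)
        · exact Or.inr (congrArg Fin.val h)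
      · right
        intro z hz hzx hzy
        have hz' := (mem_verts G).1 hz
        rcases h ⟨z, hz'⟩ ((adjB_iff G ⟨z, hz'⟩ x).1 hzx) ((adjB_iff G ⟨z, hz'⟩ y).1 hzy) with
          h5 | ⟨u, hu, hux, huy, hzu⟩
        · exact Or.inl h5
        · refine Or.inr ⟨u, hu, fun h => hux (Fin.ext h), fun h => huy (Fin.ext h), ?_⟩
          exact (adjB_iff G ⟨z, hz'⟩ u).2 hzu

theorem triCondB_iff : triCondB (R671.adjMatrix G) = true ↔ TriCond G := by
  have hm := fun {i : ℕ} => mem_verts G (i := i)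
  simp only [triCondB, List.all_eq_true, imp_iff, Bool.and_eq_true, List.any_eq_true,
    Bool.or_eq_true, decide_eq_true_eq, hm]
  constructor
  · intro h a b c hab hbc hac
    rcases h a a.2 b b.2 c c.2 ⟨⟨(adjB_iff G a b).2 hab, (adjB_iff G b c).2 hbc⟩,
      (adjB_iff G a c).2 hac⟩ with ((⟨d, hd, ⟨h1, h2⟩, h3⟩ | h1) | h1) | h1
    · exact Or.inl ⟨⟨d, hd⟩, (adjB_iff G ⟨d, hd⟩ a).1 h1, (adjB_iff G ⟨d, hd⟩ b).1 h2,
        (adjB_iff G ⟨d, hd⟩ c).1 h3⟩
    · right; left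
      intro z hz1 hz2
      exact Fin.ext (h1 z z.2 ⟨(adjB_iff G z a).2 hz1, (adjB_iff G z b).2 hz2⟩)
    · right; right; left
      intro z hz1 hz2
      exact Fin.ext (h1 z z.2 ⟨(adjB_iff G z b).2 hz1, (adjB_iff G z c).2 hz2⟩)
    · right; right; right
      intro z hz1 hz2
      exact Fin.ext (h1 z z.2 ⟨(adjB_iff G z a).2 hz1, (adjB_iff G z c).2 hz2⟩)
  · rintro h a ha b hb c hc ⟨⟨hab, hbc⟩, hac⟩
    rcases h ⟨a, ha⟩ ⟨b, hb⟩ ⟨c, hc⟩ ((adjB_iff G ⟨a, ha⟩ ⟨b, hb⟩).1 hab)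
      ((adjB_iff G ⟨b, hb⟩ ⟨c, hc⟩).1 hbc) ((adjB_iff G ⟨a, ha⟩ ⟨c, hc⟩).1 hac) with
      ⟨d, h1, h2, h3⟩ | h1 | h1 | h1
    · refine Or.inl (Or.inl (Or.inl ⟨d, d.2, ⟨?_, ?_⟩, ?_⟩))
      · exact (adjB_iff G d ⟨a, ha⟩).2 h1
      · exact (adjB_iff G d ⟨b, hb⟩).2 h2
      · exact (adjB_iff G d ⟨c, hc⟩).2 h3
    · refine Or.inl (Or.inl (Or.inr ?_))
      rintro z hz ⟨hz1, hz2⟩
      exact congrArg Fin.val (h1 ⟨z, hz⟩ ((adjB_iff G ⟨z, hz⟩ ⟨a, ha⟩).1 hz1)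
        ((adjB_iff G ⟨z, hz⟩ ⟨b, hb⟩).1 hz2))
    · refine Or.inl (Or.inr ?_)
      rintro z hz ⟨hz1, hz2⟩
      exact congrArg Fin.val (h1 ⟨z, hz⟩ ((adjB_iff G ⟨z, hz⟩ ⟨b, hb⟩).1 hz1)
        ((adjB_iff G ⟨z, hz⟩ ⟨c, hc⟩).1 hz2))
    · refine Or.inr ?_
      rintro z hz ⟨hz1, hz2⟩
      exact congrArg Fin.val (h1 ⟨z, hz⟩ ((adjB_iff G ⟨z, hz⟩ ⟨a, ha⟩).1 hz1)
        ((adjB_iff G ⟨z, hz⟩ ⟨c, hc⟩).1 hz2))

/-! ### The lists of `K₄`s -/

theorem mem_quads {q : List ℕ} (h : q ∈ quads (R671.adjMatrix G)) :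
    q.length = 4 ∧ (∀ x ∈ q, x < n) ∧
    ∃ Q : Finset (Fin n), G.IsNClique 4 Q ∧ ∀ x : Fin n, x ∈ Q ↔ (x : ℕ) ∈ q := by
  obtain ⟨h1, h2⟩ := List.mem_filter.1 h
  obtain ⟨h3, h4⟩ := mem_lists.1 h1
  have h5 : ∀ x ∈ q, x < n := fun x hx => (mem_verts G).1 (h4 x hx)
  refine ⟨h3, h5, ?_⟩
  match q, h3 with
  | [a, b, c, d], _ =>
    simp only [List.mem_cons, List.not_mem_nil, or_false, forall_eq_or_imp, forall_eq] at h5
    obtain ⟨ha, hb, hc, hd⟩ := h5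
    simp only [quadB, List.getD_cons_zero, List.getD_cons_succ, Bool.and_eq_true] at h2
    obtain ⟨⟨⟨⟨⟨hab, hac⟩, had⟩, hbc⟩, hbd⟩, hcd⟩ := h2
    refine ⟨{⟨a, ha⟩, ⟨b, hb⟩, ⟨c, hc⟩, ⟨d, hd⟩}, isK4 ((adjB_iff G ⟨a, ha⟩ ⟨b, hb⟩).1 hab)
      ((adjB_iff G ⟨a, ha⟩ ⟨c, hc⟩).1 hac) ((adjB_iff G ⟨a, ha⟩ ⟨d, hd⟩).1 had)
      ((adjB_iff G ⟨b, hb⟩ ⟨c, hc⟩).1 hbc) ((adjB_iff G ⟨b, hb⟩ ⟨d, hd⟩).1 hbd)
      ((adjB_iff G ⟨c, hc⟩ ⟨d, hd⟩).1 hcd), ?_⟩
    intro x
    simp [Fin.ext_iff]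

theorem exists_quad {Q : Finset (Fin n)} (hQ : G.IsNClique 4 Q) :
    ∃ q ∈ quads (R671.adjMatrix G), ∀ x : Fin n, x ∈ Q ↔ (x : ℕ) ∈ q := by
  have hl : Q.toList.length = 4 := by rw [Finset.length_toList, hQ.2]
  have hmem : ∀ x, x ∈ Q ↔ x ∈ Q.toList := fun x => Finset.mem_toList.symm
  have hnd : Q.toList.Nodup := Q.nodup_toList
  generalize Q.toList = L at hl hmem hnd
  match L, hl with
  | [a, b, c, d], _ =>
    have hadj : ∀ x y, x ∈ [a, b, c, d] → y ∈ [a, b, c, d] → x ≠ y → G.Adj x y := by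
      intro x y hx hy hxy
      exact adj_of_clique hQ ((hmem x).2 hx) ((hmem y).2 hy) hxy
    simp only [List.nodup_cons, List.mem_cons, List.not_mem_nil, or_false, not_or] at hnd
    refine ⟨[(a : ℕ), b, c, d], List.mem_filter.2 ⟨mem_lists.2 ⟨rfl, ?_⟩, ?_⟩, ?_⟩
    · intro x hx
      rw [mem_verts]
      simp only [List.mem_cons, List.not_mem_nil, or_false] at hx
      rcases hx with rfl | rfl | rfl | rfl
      exacts [a.2, b.2, c.2, d.2]
    · simp only [quadB, List.getD_cons_zero, List.getD_cons_succ, Bool.and_eq_true]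
      refine ⟨⟨⟨⟨⟨?_, ?_⟩, ?_⟩, ?_⟩, ?_⟩, ?_⟩ <;> rw [adjB_iff] <;> apply hadj <;>
        first | (simp; done) | tauto
    · intro x
      rw [hmem]
      simp [Fin.ext_iff]

/-! ### Tables and functions -/

/-- The function `w` is given by the state `st`. -/
def Rep (n : ℕ) (st : State) (w : Sym2 (Fin n) → Set (Fin n)) : Prop :=
  ∀ e ∈ ents st, ∀ x y : Fin n, (x : ℕ) = e.1.1 → (y : ℕ) = e.1.2 → x ≠ y →
    w s(x, y) = toS n e.2

theorem exists_rep {st : State} (h : symB st st = true) : ∃ w, Rep n st w := by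
  rw [symB_iff] at h
  refine ⟨fun e => {v | ∃ en ∈ ents st, ∃ x y : Fin n, e = s(x, y) ∧ (x : ℕ) = en.1.1 ∧
    (y : ℕ) = en.1.2 ∧ (v : ℕ) ∈ en.2}, ?_⟩
  intro e he x y hx hy hxy
  ext v
  constructor
  · rintro ⟨en, hen, x', y', h1, h2, h3, h4⟩
    refine (h en hen e he ?_ v).1 h4
    rcases Sym2.eq_iff.1 h1 with ⟨rfl, rfl⟩ | ⟨rfl, rfl⟩
    · exact Or.inl ⟨by rw [← h2, ← hx], by rw [← h3, ← hy]⟩
    · exact Or.inr ⟨by rw [← h2, ← hy], by rw [← h3, ← hx]⟩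
  · intro hv
    exact ⟨e, he, x, y, rfl, hx, hy, hv⟩

section
variable {G}

theorem ent_val {st : State}
    (h2 : st.2 ∈ lists 16 (lists 4 (verts (R671.adjMatrix G)))) {e : Ent} (he : e ∈ ents st) :
    ∀ v ∈ e.2, v < n := by
  intro v hv
  have h3 := (mem_lists.1 h2).2 _ (mem_ents_val he)
  exact (mem_verts G).1 ((mem_lists.1 h3).2 v hv)

theorem ent_key {st : State} (hq : st.1 ∈ quads (R671.adjMatrix G)) {Q : Finset (Fin n)}
    (hQ : ∀ x : Fin n, x ∈ Q ↔ (x : ℕ) ∈ st.1) {e : Ent} (he : e ∈ ents st) :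
    ∃ x y : Fin n, (x : ℕ) = e.1.1 ∧ (y : ℕ) = e.1.2 ∧ x ∈ Q ∧ y ∈ Q := by
  obtain ⟨h1, h2⟩ := mem_ents_key he
  have h3 := (mem_quads G hq).2.1
  exact ⟨⟨_, h3 _ h1⟩, ⟨_, h3 _ h2⟩, rfl, rfl, (hQ _).2 h1, (hQ _).2 h2⟩

theorem loc_iff {st : State} {Q : Finset (Fin n)} {w : Sym2 (Fin n) → Set (Fin n)}
    (hq : st.1 ∈ quads (R671.adjMatrix G)) (hQ : ∀ x : Fin n, x ∈ Q ↔ (x : ℕ) ∈ st.1)
    (h2 : st.2 ∈ lists 16 (lists 4 (verts (R671.adjMatrix G)))) (hr : Rep n st w) :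
    (oB (R671.adjMatrix G) st = true ∧ monoB st = true ∧ triB st = true) ↔ Loc G Q w := by
  have hex : ∀ x ∈ Q, ∀ y ∈ Q, ∃ S, (((x : ℕ), (y : ℕ)), S) ∈ ents st := fun x hx y hy =>
    exists_ent (mem_quads G hq).1 (mem_lists.1 h2).1 ((hQ x).1 hx) ((hQ y).1 hy)
  have hoB : oB (R671.adjMatrix G) st = true ↔ ∀ e ∈ ents st, e.1.1 = e.1.2 ∨
      optB (R671.adjMatrix G) e.1.1 e.1.2 e.2 = true := by
    simp [oB]
  rw [hoB, monoB_iff, triB_iff]
  constructor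
  · rintro ⟨h3, h4, h5⟩
    refine ⟨?_, ?_, ?_⟩
    · intro x hx y hy hxy
      obtain ⟨S, hS⟩ := hex x hx y hy
      rw [hr _ hS x y rfl rfl hxy]
      rcases h3 _ hS with h | h
      · exact absurd (Fin.ext h) hxy
      · exact (optB_iff G (ent_val h2 hS)).1 h
    · intro x hx y hy hxy a ha b hb hab hax hbx
      obtain ⟨S, hS⟩ := hex x hx y hy
      obtain ⟨S', hS'⟩ := hex a ha b hb
      rw [hr _ hS x y rfl rfl hxy] at hax hbx ⊢
      rw [hr _ hS' a b rfl rfl hab]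
      intro v hv
      exact h4 _ hS _ hS' (fun h => hxy (Fin.ext h)) (fun h => hab (Fin.ext h)) hax hbx v hv
    · intro a ha b hb c hc hab hbc hac
      obtain ⟨S, hS⟩ := hex a ha b hb
      obtain ⟨S', hS'⟩ := hex b hb c hc
      obtain ⟨S'', hS''⟩ := hex a ha c hc
      rw [hr _ hS a b rfl rfl hab, hr _ hS' b c rfl rfl hbc, hr _ hS'' a c rfl rfl hac]
      obtain ⟨v, hv, hv', hv''⟩ := h5 _ hS _ hS' _ hS'' rfl rfl rfl (fun h => hab (Fin.ext h))
        (fun h => hbc (Fin.ext h)) (fun h => hac (Fin.ext h))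
      exact ⟨⟨v, ent_val h2 hS v hv⟩, hv, hv', hv''⟩
  · intro hL
    refine ⟨?_, ?_, ?_⟩
    · intro e he
      obtain ⟨x, y, hx, hy, hxQ, hyQ⟩ := ent_key hq hQ he
      by_cases hxy : x = y
      · left
        rw [← hx, ← hy, hxy]
      · right
        rw [← hx, ← hy, optB_iff G (ent_val h2 he), ← hr e he x y hx hy hxy]
        exact hL.opt x hxQ y hyQ hxy
    · intro e he e' he' h6 h7 h8 h9 v hv
      obtain ⟨x, y, hx, hy, hxQ, hyQ⟩ := ent_key hq hQ he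
      obtain ⟨a, b, ha, hb, haQ, hbQ⟩ := ent_key hq hQ he'
      have hxy : x ≠ y := fun h => h6 (by rw [← hx, ← hy, h])
      have hab : a ≠ b := fun h => h7 (by rw [← ha, ← hb, h])
      have h10 := hL.mono x hxQ y hyQ hxy a haQ b hbQ hab
      rw [hr e he x y hx hy hxy, hr e' he' a b ha hb hab] at h10
      have hvn := ent_val h2 he' v hv
      exact h10 (show (a : ℕ) ∈ e.2 by rw [ha]; exact h8)
        (show (b : ℕ) ∈ e.2 by rw [hb]; exact h9) (show (⟨v, hvn⟩ : Fin n) ∈ toS n e'.2 from hv)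
    · intro e he e' he' e'' he'' h6 h7 h8 h9 h10 h11
      obtain ⟨a, b, ha, hb, haQ, hbQ⟩ := ent_key hq hQ he
      obtain ⟨b', c, hb', hc, hbQ', hcQ⟩ := ent_key hq hQ he'
      have hbb : b = b' := Fin.ext (by rw [hb, hb', h6])
      subst hbb
      have hab : a ≠ b := fun h => h9 (by rw [← ha, ← hb, h])
      have hbc : b ≠ c := fun h => h10 (by rw [← hb', ← hc, h])
      have hac : a ≠ c := fun h => h11 (by rw [← h7, ← h8, ← ha, ← hc, h])
      obtain ⟨v, hv, hv', hv''⟩ := hL.tri a haQ b hbQ c hcQ hab hbc hac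
      rw [hr e he a b ha hb hab] at hv
      rw [hr e' he' b c hb' hc hbc] at hv'
      rw [hr e'' he'' a c (by rw [ha, h7]) (by rw [hc, h8]) hac] at hv''
      exact ⟨v, hv, hv', hv''⟩

theorem mem_states0 {st : State} : st ∈ states0 (R671.adjMatrix G) ↔
    st.1 ∈ quads (R671.adjMatrix G) ∧
    st.2 ∈ lists 16 (lists 4 (verts (R671.adjMatrix G))) ∧ symB st st = true ∧
    (oB (R671.adjMatrix G) st = true ∧ monoB st = true ∧ triB st = true) := by
  have h : st ∈ (quads (R671.adjMatrix G)) ×ˢ (lists 16 (lists 4 (verts (R671.adjMatrix G)))) ↔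
      st.1 ∈ quads (R671.adjMatrix G) ∧
      st.2 ∈ lists 16 (lists 4 (verts (R671.adjMatrix G))) := List.mem_product (a := st.1) (b := st.2)
  rw [states0, List.mem_filter, h]
  simp only [locB, Bool.and_eq_true]
  tauto

end

/-! ### The fixed point -/

theorem iterate_fix {α : Type} (f : List α → List α) (hf : ∀ A, (f A).Sublist A) :
    ∀ (k : ℕ) (A : List α), A.length ≤ k → f (f^[k] A) = f^[k] A
  | 0, A, h => by
    have h1 : A = [] := List.length_eq_zero_iff.1 (Nat.le_zero.1 h)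
    subst h1
    exact List.sublist_nil.1 (hf [])
  | k + 1, A, h => by
    rw [Function.iterate_succ_apply]
    by_cases h1 : f A = A
    · rw [h1, Function.iterate_fixed h1, h1]
    · apply iterate_fix f hf k
      have h2 := (hf A).length_le
      have h3 : (f A).length ≠ A.length := fun h3 => h1 ((hf A).eq_of_length h3)
      omega

theorem fix_cons {m : List (List Bool)} {st : State} (h : st ∈ fixS m) {q : List ℕ}
    (hq : q ∈ quads m) : ∃ st' ∈ fixS m, st'.1 = q ∧ symB st st' = true := by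
  have h1 : step m (fixS m) = fixS m := iterate_fix (step m) (step_sublist m) _ _ le_rfl
  rw [← h1] at h
  have h2 := (List.mem_filter.1 h).2
  simp only [List.all_eq_true, List.any_eq_true, Bool.and_eq_true, decide_eq_true_eq] at h2
  exact h2 q hq

theorem fix_sub {m : List (List Bool)} {st : State} (h : st ∈ fixS m) : st ∈ states0 m :=
  (iterate_sublist m _ _).subset h

/-! ### Correctness -/

section
variable {G}

/-- If every `K₄` has a surviving state, there is a global solution. -/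
theorem exists_sol (hG : NoK5 G)
    (h : ∀ q ∈ quads (R671.adjMatrix G), ∃ st ∈ fixS (R671.adjMatrix G), st.1 = q) :
    ∃ k, ∀ Q, G.IsNClique 4 Q → Loc G Q k := by
  set R : Finset (Fin n) → Set (Sym2 (Fin n) → Set (Fin n)) := fun Q =>
    {w | ∃ st ∈ fixS (R671.adjMatrix G), (∀ x : Fin n, x ∈ Q ↔ (x : ℕ) ∈ st.1) ∧ Rep n st w}
    with hR
  have hRloc : ∀ Q w, w ∈ R Q → Loc G Q w := by
    rintro Q w ⟨st, hst, hQ, hr⟩
    obtain ⟨h1, h2, -, h4⟩ := mem_states0.1 (fix_sub hst)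
    exact (loc_iff h1 hQ h2 hr).1 h4
  suffices hext : ∃ w, ∀ Q, G.IsNClique 4 Q → w ∈ R Q by
    obtain ⟨w, hw⟩ := hext
    exact ⟨w, fun Q hQ => hRloc Q w (hw Q hQ)⟩
  refine extend hG (fun e => {v | v ∈ e}) R ?_ ?_ ?_ ?_
  · intro Q hQ
    obtain ⟨q, hq, hqQ⟩ := exists_quad G hQ
    obtain ⟨st, hst, rfl⟩ := h q hq
    obtain ⟨w, hw⟩ := exists_rep (n := n) (mem_states0.1 (fix_sub hst)).2.2.1
    exact ⟨w, st, hst, hqQ, hw⟩
  · rintro Q w w' hww ⟨st, hst, hQ, hr⟩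
    refine ⟨st, hst, hQ, ?_⟩
    intro e he x y hx hy hxy
    obtain ⟨h1, h2⟩ := mem_ents_key he
    rw [← hww x ((hQ x).2 (hx ▸ h1)) y ((hQ y).2 (hy ▸ h2)) hxy]
    exact hr e he x y hx hy hxy
  · rintro Q Q' hs w ⟨st, hst, hQ, hr⟩
    obtain ⟨q', hq', hqQ'⟩ := exists_quad G hs.2.1
    obtain ⟨st', hst', rfl, hsym⟩ := fix_cons hst hq'
    obtain ⟨w', hw'⟩ := exists_rep (n := n) (mem_states0.1 (fix_sub hst')).2.2.1
    refine ⟨w', ⟨st', hst', hqQ', hw'⟩, ?_⟩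
    intro x hx y hy hxy
    rw [Finset.mem_inter] at hx hy
    obtain ⟨h1, h2, -, -⟩ := mem_states0.1 (fix_sub hst)
    obtain ⟨h1', h2', -, -⟩ := mem_states0.1 (fix_sub hst')
    obtain ⟨S, hS⟩ := exists_ent (mem_quads G h1).1 (mem_lists.1 h2).1 ((hQ x).1 hx.1)
      ((hQ y).1 hy.1)
    obtain ⟨S', hS'⟩ := exists_ent (mem_quads G h1').1 (mem_lists.1 h2').1 ((hqQ' x).1 hx.2)
      ((hqQ' y).1 hy.2)
    rw [hr _ hS x y rfl rfl hxy, hw' _ hS' x y rfl rfl hxy]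
    ext v
    exact symB_iff.1 hsym _ hS _ hS' (Or.inl ⟨rfl, rfl⟩) v
  · intro Q Q' hQ hQ' hn x y hxy hx hy hx' hy' w hw
    have h1 := (hRloc Q w hw).opt x hx y hy hxy
    rw [dead hG hQ hQ' hn hxy hx hy hx' hy' h1]
    ext v
    simp [Sym2.mem_iff]

theorem exists_four (hG : NoK5 G) {Q : Finset (Fin n)} (hQ : G.IsNClique 4 Q) {x y : Fin n}
    (hx : x ∈ Q) (hy : y ∈ Q) (hxy : x ≠ y) {S : Set (Fin n)} (hS : Opt G x y S) :
    ∃ L : List ℕ, L ∈ lists 4 (verts (R671.adjMatrix G)) ∧ toS n L = S := by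
  have key : ∀ a b c d : Fin n, (∀ v, v ∈ S ↔ v = a ∨ v = b ∨ v = c ∨ v = d) →
      ∃ L : List ℕ, L ∈ lists 4 (verts (R671.adjMatrix G)) ∧ toS n L = S := by
    intro a b c d h
    refine ⟨[a, b, c, d], mem_lists.2 ⟨rfl, ?_⟩, ?_⟩
    · intro x hx
      rw [mem_verts]
      simp only [List.mem_cons, List.not_mem_nil, or_false] at hx
      rcases hx with rfl | rfl | rfl | rfl
      exacts [a.2, b.2, c.2, d.2]
    · ext v
      rw [h]
      simp [toS, Fin.ext_iff]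
  rcases opt_cases hG hQ hx hy hxy hS with h1 | ⟨u, -, -, -, hu⟩ | ⟨Q1, h1, h2, h3, h4, -⟩
  · refine key x y y y fun v => ⟨fun hv => ?_, ?_⟩
    · rcases h1 v hv with h | h
      · exact Or.inl h
      · exact Or.inr (Or.inl h)
    · rintro (rfl | rfl | rfl | rfl)
      exacts [hS.left, hS.right, hS.right, hS.right]
  · refine key x y u u fun v => ?_
    rw [hu]
    simp only [Set.mem_insert_iff, Set.mem_singleton_iff]
    tauto
  · obtain ⟨p, q, hQe, -⟩ := exists_two h1 h3 h4 hxy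
    refine key x y p q fun v => ?_
    rw [h2, hQe]
    simp

/-- A global solution survives. -/
theorem survive (hG : NoK5 G) (hn : 0 < n) {k : Sym2 (Fin n) → Set (Fin n)}
    (hk : ∀ Q, G.IsNClique 4 Q → Loc G Q k) :
    ∀ q ∈ quads (R671.adjMatrix G), ∃ st ∈ fixS (R671.adjMatrix G), st.1 = q := by
  classical
  have hg0 : ∀ p : ℕ × ℕ, ∃ L : List ℕ, L ∈ lists 4 (verts (R671.adjMatrix G)) ∧
      ∀ x y : Fin n, (x : ℕ) = p.1 → (y : ℕ) = p.2 → x ≠ y → InK4 G x y →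
      toS n L = k s(x, y) := by
    intro p
    by_cases hp : ∃ x y : Fin n, (x : ℕ) = p.1 ∧ (y : ℕ) = p.2 ∧ x ≠ y ∧ InK4 G x y
    · obtain ⟨x, y, hx, hy, hxy, Q, hQ, hxQ, hyQ⟩ := hp
      obtain ⟨L, h1, h2⟩ := exists_four hG hQ hxQ hyQ hxy ((hk Q hQ).opt x hxQ y hyQ hxy)
      refine ⟨L, h1, ?_⟩
      intro x' y' hx' hy' _ _
      have e1 : x = x' := Fin.ext (by rw [hx, hx'])
      have e2 : y = y' := Fin.ext (by rw [hy, hy'])
      rw [← e1, ← e2]
      exact h2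
    · refine ⟨[0, 0, 0, 0], mem_lists.2 ⟨rfl, ?_⟩, ?_⟩
      · intro x hx
        rw [mem_verts]
        simp only [List.mem_cons, List.not_mem_nil, or_false, or_self] at hx
        omega
      · intro x y hx hy hxy hin
        exact absurd ⟨x, y, hx, hy, hxy, hin⟩ hp
  choose g hg1 hg2 using hg0
  have hgval : ∀ p, ∀ v ∈ g p, v < n := fun p v hv =>
    (mem_verts G).1 ((mem_lists.1 (hg1 p)).2 v hv)
  have hsym : ∀ q ∈ quads (R671.adjMatrix G), ∀ q' ∈ quads (R671.adjMatrix G),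
      symB (stOf g q) (stOf g q') = true := by
    intro q hq q' hq'
    rw [symB_iff]
    intro e he e' he' hkey v
    obtain ⟨h1, h2, h3⟩ := mem_ents_stOf he
    obtain ⟨h1', h2', h3'⟩ := mem_ents_stOf he'
    rw [h3, h3']
    rcases hkey with ⟨h4, h5⟩ | ⟨h4, h5⟩
    · have : e.1 = e'.1 := Prod.ext h4 h5
      rw [this]
    · by_cases h6 : e.1.1 = e.1.2
      · have : e.1 = e'.1 := Prod.ext (h6.trans h5) (h6.symm.trans h4)
        rw [this]
      · obtain ⟨-, hlt, Q, hQ, hQq⟩ := mem_quads G hq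
        set x : Fin n := ⟨e.1.1, hlt _ h1⟩ with hx
        set y : Fin n := ⟨e.1.2, hlt _ h2⟩ with hy
        have hxy : x ≠ y := fun h => h6 (Fin.mk.inj_iff.1 h)
        have hxQ : x ∈ Q := (hQq x).2 h1
        have hyQ : y ∈ Q := (hQq y).2 h2
        have e1 := hg2 e.1 x y rfl rfl hxy ⟨Q, hQ, hxQ, hyQ⟩
        have e2 := hg2 e'.1 y x (by rw [← h5]) (by rw [← h4]) hxy.symm ⟨Q, hQ, hyQ, hxQ⟩
        rw [Sym2.eq_swap, ← e1] at e2
        constructor
        · intro hv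
          have : (⟨v, hgval _ _ hv⟩ : Fin n) ∈ toS n (g e.1) := hv
          rw [← e2] at this
          exact this
        · intro hv
          have : (⟨v, hgval _ _ hv⟩ : Fin n) ∈ toS n (g e'.1) := hv
          rw [e2] at this
          exact this
  have h0 : ∀ q ∈ quads (R671.adjMatrix G), stOf g q ∈ states0 (R671.adjMatrix G) := by
    intro q hq
    obtain ⟨hl, hlt, Q, hQ, hQq⟩ := mem_quads G hq
    have h2 : (stOf g q).2 ∈ lists 16 (lists 4 (verts (R671.adjMatrix G))) := by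
      refine mem_lists.2 ⟨?_, ?_⟩
      · have := List.length_product q q
        rw [hl] at this
        simpa [stOf] using this
      · intro L hL
        obtain ⟨p, -, rfl⟩ := List.mem_map.1 hL
        exact hg1 p
    have hr : Rep n (stOf g q) k := by
      intro e he x y hx hy hxy
      obtain ⟨h1, h2, h3⟩ := mem_ents_stOf he
      rw [h3]
      exact (hg2 e.1 x y hx hy hxy ⟨Q, hQ, (hQq x).2 (hx ▸ h1), (hQq y).2 (hy ▸ h2)⟩).symm
    exact mem_states0.2 ⟨hq, h2, hsym q hq q hq, (loc_iff hq hQq h2 hr).2 (hk Q hQ)⟩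
  have hiter : ∀ j : ℕ, ∀ q ∈ quads (R671.adjMatrix G),
      stOf g q ∈ (step (R671.adjMatrix G))^[j] (states0 (R671.adjMatrix G)) := by
    intro j
    induction j with
    | zero => exact h0
    | succ j ih =>
      intro q hq
      rw [Function.iterate_succ_apply']
      refine List.mem_filter.2 ⟨ih q hq, ?_⟩
      simp only [List.all_eq_true, List.any_eq_true, Bool.and_eq_true, decide_eq_true_eq]
      intro q' hq'
      exact ⟨stOf g q', ih q' hq', rfl, hsym q hq q' hq'⟩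
  intro q hq
  exact ⟨stOf g q, hiter _ q hq, rfl⟩

/-- The algorithm is correct on graphs without `K₅` minor. -/
theorem alg_correct (hG : NoK5 G) : alg (R671.adjMatrix G) = true ↔ IsCliqueGraph G := by
  rw [isCliqueGraph_iff, good_iff hG]
  have h1 : alg (R671.adjMatrix G) = true ↔ (R671.adjMatrix G) ≠ [] ∧ TriCond G ∧
      ∀ q ∈ quads (R671.adjMatrix G), ∃ st ∈ fixS (R671.adjMatrix G), st.1 = q := by
    rw [alg, Bool.and_eq_true, Bool.and_eq_true, triCondB_iff]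
    simp only [List.all_eq_true, List.any_eq_true, decide_eq_true_eq, Bool.not_eq_true',
      List.isEmpty_eq_false_iff]
    tauto
  have h2 : (R671.adjMatrix G) ≠ [] ↔ Nonempty (Fin n) := by
    rw [← List.length_pos_iff, length_adjMatrix, Fin.pos_iff_nonempty]
  rw [h1, h2]
  constructor
  · rintro ⟨h3, h4, h5⟩
    exact ⟨h3, h4, exists_sol hG h5⟩
  · rintro ⟨h3, h4, k, hk⟩
    exact ⟨h3, h4, survive hG (Fin.pos_iff_nonempty.2 h3) hk⟩

end

end Pool.Agent.H601R2.PCG
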