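import Pool.Agent.H671R2.PolyAuto

/-!
# The algorithm, and its running time
-/

set_option autoImplicit false

namespace Pool.Agent.H601R2.PCG

open Pool.Agent.NPC

/-- All lists of length `k` over `l`. -/
def lists {α : Type} : ℕ → List α → List (List α)
  | 0, _ => [[]]
  | k + 1, l => l.flatMap fun x => (lists k l).map fun t => x :: t

theorem mem_lists {α : Type} {l : List α} : ∀ {k : ℕ} {t : List α},
    t ∈ lists k l ↔ t.length = k ∧ ∀ x ∈ t, x ∈ l
  | 0, t => by
    simp only [lists, List.mem_singleton, List.length_eq_zero_iff]
    constructor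
    · rintro rfl; simp
    · exact fun h => h.1
  | k + 1, t => by
    simp only [lists, List.mem_flatMap, List.mem_map, mem_lists (k := k)]
    constructor
    · rintro ⟨x, hx, t', ⟨h1, h2⟩, rfl⟩
      refine ⟨by simp [h1], ?_⟩
      intro y hy
      rcases List.mem_cons.1 hy with rfl | hy
      · exact hx
      · exact h2 y hy
    · rintro ⟨h1, h2⟩
      cases t with
      | nil => simp at h1
      | cons x t' =>
        exact ⟨x, h2 x (by simp), t', ⟨by simpa using h1, fun y hy => h2 y (by simp [hy])⟩, rfl⟩

/-- Boolean implication. -/
def imp (a b : Bool) : Bool := !a || b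

theorem imp_iff {a b : Bool} : imp a b = true ↔ (a = true → b = true) := by
  cases a <;> cases b <;> simp [imp]

/-- An entry of an adjacency matrix. -/
def adjB (m : List (List Bool)) (i j : ℕ) : Bool := (m.getD i []).getD j false

/-- The vertices. -/
def verts (m : List (List Bool)) : List ℕ := List.range m.length

/-- The test whether the first four entries of a list are pairwise adjacent. -/
def quadB (m : List (List Bool)) (q : List ℕ) : Bool :=
  adjB m (q.getD 0 0) (q.getD 1 0) && adjB m (q.getD 0 0) (q.getD 2 0) &&
  adjB m (q.getD 0 0) (q.getD 3 0) && adjB m (q.getD 1 0) (q.getD 2 0) &&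
  adjB m (q.getD 1 0) (q.getD 3 0) && adjB m (q.getD 2 0) (q.getD 3 0)

/-- The `K₄`s, as lists. -/
def quads (m : List (List Bool)) : List (List ℕ) := (lists 4 (verts m)).filter (quadB m)

/-- An entry: a pair of vertices and the list of elements of its value. -/
abbrev Ent : Type := (ℕ × ℕ) × List ℕ

/-- A state: a `K₄` and the table of the values of the pairs of its vertices. -/
abbrev State : Type := List ℕ × List (List ℕ)

/-- The entries of a state. -/
def ents (st : State) : List Ent := (st.1 ×ˢ st.1).zip st.2

/-- The constraint on one value. -/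
def optB (m : List (List Bool)) (x y : ℕ) (S : List ℕ) : Bool :=
  decide (x ∈ S) && decide (y ∈ S) &&
  (S.all fun u => S.all fun v => decide (u = v) || adjB m u v) &&
  ((S.all fun u => decide (u = x) || decide (u = y)) ||
    ((verts m).all fun z => imp (adjB m z x && adjB m z y)
      (decide (z ∈ S) || S.any fun u => !decide (u = x) && !decide (u = y) && adjB m z u)))

/-- Inclusion of lists. -/
def subB (S S' : List ℕ) : Bool := S.all fun v => decide (v ∈ S')

/-- Two entries concern the same unordered pair. -/
def keyB (e e' : Ent) : Bool :=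
  (decide (e.1.1 = e'.1.1) && decide (e.1.2 = e'.1.2)) ||
  (decide (e.1.1 = e'.1.2) && decide (e.1.2 = e'.1.1))

/-- Two states are compatible. -/
def symB (st st' : State) : Bool := (ents st).all fun e => (ents st').all fun e' =>
  imp (keyB e e') (subB e.2 e'.2 && subB e'.2 e.2)

/-- Monotonicity of a state. -/
def monoB (st : State) : Bool := (ents st).all fun e => (ents st).all fun e' =>
  imp (!decide (e.1.1 = e.1.2) && !decide (e'.1.1 = e'.1.2) && decide (e'.1.1 ∈ e.2) &&
    decide (e'.1.2 ∈ e.2)) (subB e'.2 e.2)

/-- The triangle condition of a state. -/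
def triB (st : State) : Bool := (ents st).all fun e => (ents st).all fun e' =>
  (ents st).all fun e'' =>
  imp (decide (e.1.2 = e'.1.1) && decide (e.1.1 = e''.1.1) && decide (e'.1.2 = e''.1.2) &&
    !decide (e.1.1 = e.1.2) && !decide (e'.1.1 = e'.1.2) && !decide (e''.1.1 = e''.1.2))
    (e.2.any fun v => decide (v ∈ e'.2) && decide (v ∈ e''.2))

/-- The optimality condition for all entries of a state. -/
def oB (m : List (List Bool)) (st : State) : Bool :=
  (ents st).all fun e => decide (e.1.1 = e.1.2) || optB m e.1.1 e.1.2 e.2

/-- The local constraints. -/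
def locB (m : List (List Bool)) (st : State) : Bool :=
  symB st st && oB m st && monoB st && triB st

/-- The states satisfying the local constraints. -/
def states0 (m : List (List Bool)) : List State :=
  ((quads m) ×ˢ (lists 16 (lists 4 (verts m)))).filter (locB m)

/-- One round of arc consistency. -/
def step (m : List (List Bool)) (A : List State) : List State :=
  A.filter fun st => (quads m).all fun q => A.any fun st' => decide (st'.1 = q) && symB st st'

/-- The surviving states. -/
def fixS (m : List (List Bool)) : List State := (step m)^[(states0 m).length] (states0 m)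

/-- The condition on the triangles outside the `K₄`s. -/
def triCondB (m : List (List Bool)) : Bool :=
  (verts m).all fun a => (verts m).all fun b => (verts m).all fun c =>
    imp (adjB m a b && adjB m b c && adjB m a c)
      (((verts m).any fun d => adjB m d a && adjB m d b && adjB m d c) ||
       ((verts m).all fun z => imp (adjB m z a && adjB m z b) (decide (z = c))) ||
       ((verts m).all fun z => imp (adjB m z b && adjB m z c) (decide (z = a))) ||
       ((verts m).all fun z => imp (adjB m z a && adjB m z c) (decide (z = b))))

/-- The algorithm. -/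
def alg (m : List (List Bool)) : Bool :=
  !m.isEmpty && triCondB m && (quads m).all fun q => (fixS m).any fun st => decide (st.1 = q)

/-! ### Running time -/

section
variable {α : Type} [TEnc α]

@[fun_prop]
theorem poly_lists {β : Type} [TEnc β] {l : α → List β} (hl : Poly l) (k : ℕ) :
    Poly (fun a => lists k (l a)) := by
  induction k with
  | zero => exact NPC.Poly.const _
  | succ k ih =>
    simp only [lists]
    refine Poly.flatMap (F := fun a x => (lists k (l a)).map fun t => x :: t) hl ?_
    exact NPC.Poly.map (l := fun p : α × β => lists k (l p.1)) (F := fun p t => p.2 :: t)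
      (ih.comp (Poly.fst Poly.id)) (Poly.cons (Poly.snd (Poly.fst Poly.id)) (Poly.snd Poly.id))

@[fun_prop]
theorem poly_imp {a b : α → Bool} (ha : Poly a) (hb : Poly b) : Poly (fun x => imp (a x) (b x)) := by
  unfold imp
  fun_prop

@[fun_prop]
theorem poly_adjB {m : α → List (List Bool)} {i j : α → ℕ} (hm : Poly m) (hi : Poly i)
    (hj : Poly j) : Poly (fun x => adjB (m x) (i x) (j x)) := by
  unfold adjB
  exact Poly.getD (Poly.getD hm hi (NPC.Poly.const _)) hj (NPC.Poly.const _)

@[fun_prop]
theorem poly_verts {m : α → List (List Bool)} (hm : Poly m) : Poly (fun x => verts (m x)) :=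
  (UPoly.length hm).range

@[fun_prop]
theorem poly_quadB {m : α → List (List Bool)} {q : α → List ℕ} (hm : Poly m) (hq : Poly q) :
    Poly (fun x => quadB (m x) (q x)) := by
  unfold quadB
  have h : ∀ k : ℕ, Poly (fun x => (q x).getD k 0) := fun k =>
    Poly.getD hq (NPC.Poly.const k) (NPC.Poly.const 0)
  have h0 := h 0
  have h1 := h 1
  have h2 := h 2
  have h3 := h 3
  fun_prop

@[fun_prop]
theorem poly_quads {m : α → List (List Bool)} (hm : Poly m) : Poly (fun x => quads (m x)) := by
  unfold quads
  fun_prop

@[fun_prop]
theorem poly_ents {s : α → State} (hs : Poly s) : Poly (fun x => ents (s x)) := by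
  unfold ents
  exact Poly.zip (R671.poly_product (Poly.fst hs) (Poly.fst hs)) (Poly.snd hs)

@[fun_prop]
theorem poly_subB {S S' : α → List ℕ} (hS : Poly S) (hS' : Poly S') :
    Poly (fun x => subB (S x) (S' x)) := by
  unfold subB
  fun_prop

@[fun_prop]
theorem poly_keyB {S S' : α → Ent} (hS : Poly S) (hS' : Poly S') :
    Poly (fun x => keyB (S x) (S' x)) := by
  unfold keyB
  fun_prop

@[fun_prop]
theorem poly_symB {S S' : α → State} (hS : Poly S) (hS' : Poly S') :
    Poly (fun x => symB (S x) (S' x)) := by
  unfold symB
  fun_prop

@[fun_prop]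
theorem poly_monoB {S : α → State} (hS : Poly S) : Poly (fun x => monoB (S x)) := by
  unfold monoB
  fun_prop

@[fun_prop]
theorem poly_triB {S : α → State} (hS : Poly S) : Poly (fun x => triB (S x)) := by
  unfold triB
  fun_prop

@[fun_prop]
theorem poly_optB {m : α → List (List Bool)} {x y : α → ℕ} {S : α → List ℕ} (hm : Poly m)
    (hx : Poly x) (hy : Poly y) (hS : Poly S) : Poly (fun a => optB (m a) (x a) (y a) (S a)) := by
  unfold optB
  fun_prop

@[fun_prop]
theorem poly_oB {m : α → List (List Bool)} {S : α → State} (hm : Poly m) (hS : Poly S) :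
    Poly (fun x => oB (m x) (S x)) := by
  unfold oB
  fun_prop

@[fun_prop]
theorem poly_locB {m : α → List (List Bool)} {S : α → State} (hm : Poly m) (hS : Poly S) :
    Poly (fun x => locB (m x) (S x)) := by
  unfold locB
  fun_prop

@[fun_prop]
theorem poly_states0 {m : α → List (List Bool)} (hm : Poly m) :
    Poly (fun x => states0 (m x)) := by
  unfold states0
  fun_prop

@[fun_prop]
theorem poly_step {m : α → List (List Bool)} {A : α → List State} (hm : Poly m) (hA : Poly A) :
    Poly (fun x => step (m x) (A x)) := by
  unfold step
  fun_prop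

theorem sz_sublist {β : Type} [TEnc β] {l l' : List β} (h : l.Sublist l') : sz l ≤ sz l' := by
  induction h with
  | slnil => exact le_rfl
  | cons a _ ih => rw [sz_list_cons]; omega
  | cons_cons a _ ih => rw [sz_list_cons, sz_list_cons]; omega

theorem step_sublist (m : List (List Bool)) (A : List State) : (step m A).Sublist A :=
  List.filter_sublist

theorem iterate_sublist (m : List (List Bool)) (A : List State) (k : ℕ) :
    ((step m)^[k] A).Sublist A := by
  induction k with
  | zero => exact List.Sublist.refl _
  | succ k ih =>
    rw [Function.iterate_succ_apply']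
    exact (step_sublist m _).trans ih

@[fun_prop]
theorem poly_fixS {m : α → List (List Bool)} (hm : Poly m) : Poly (fun x => fixS (m x)) := by
  unfold fixS
  have h0 : Poly (fun x => states0 (m x)) := poly_states0 hm
  obtain ⟨r, hr⟩ := h0.sz_le
  refine Poly.iterLen (F := fun x A => step (m x) A) h0 h0 ?_ r ?_
  · fun_prop
  · intro a k _
    exact (sz_sublist (iterate_sublist (m a) _ k)).trans (hr a)

@[fun_prop]
theorem poly_triCondB {m : α → List (List Bool)} (hm : Poly m) :
    Poly (fun x => triCondB (m x)) := by
  unfold triCondB
  fun_prop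

theorem poly_alg : Poly alg := by
  unfold alg
  fun_prop

end

end Pool.Agent.H601R2.PCG
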