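import Mathlib

/-!
# Clique graphs: definitions
-/

set_option autoImplicit false

namespace Pool.Agent.H601R2.PCG

/-- `s` is a clique of `G` in the sense of maximal complete sets: its elements are pairwise
adjacent and it is not properly contained in another such set. -/
def IsMaxComplete {W : Type} (G : SimpleGraph W) (s : Set W) : Prop :=
  G.IsClique s ∧ ∀ t : Set W, G.IsClique t → s ⊆ t → t = s

/-- The clique graph `K(G)`: its vertices are the maximal complete sets of `G`, and two distinct
ones are adjacent when they share at least one vertex. -/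
def cliqueGraph {W : Type} (G : SimpleGraph W) : SimpleGraph {s : Set W // IsMaxComplete G s} where
  Adj s t := s ≠ t ∧ ((s : Set W) ∩ (t : Set W)).Nonempty
  symm := ⟨fun _ _ h => ⟨h.1.symm, by rw [Set.inter_comm]; exact h.2⟩⟩
  loopless := ⟨fun _ h => h.1 rfl⟩

/-- `H` is a clique graph: it is isomorphic to the clique graph of some finite graph. -/
def IsCliqueGraph {V : Type} (H : SimpleGraph V) : Prop :=
  ∃ (W : Type) (_ : Finite W) (G : SimpleGraph W), Nonempty (H ≃g cliqueGraph G)

/-- A family of complete sets `K a b ⊇ {a, b}`, one for every edge, which is monotone and meets the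
triangle condition. -/
structure Good {V : Type} (H : SimpleGraph V) (K : V → V → Set V) : Prop where
  symm : ∀ a b, K a b = K b a
  left : ∀ a b, H.Adj a b → a ∈ K a b
  complete : ∀ a b, H.Adj a b → H.IsClique (K a b)
  mono : ∀ a b x y, H.Adj a b → x ∈ K a b → y ∈ K a b → x ≠ y → K x y ⊆ K a b
  tri : ∀ a b c, H.Adj a b → H.Adj b c → H.Adj a c → ∃ v, v ∈ K a b ∧ v ∈ K b c ∧ v ∈ K a c

end Pool.Agent.H601R2.PCG
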