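import Pool.Agent.H601R2.PCG.Sep

/-!
# Gluing local assignments along the forest of `K₄`s
-/

set_option autoImplicit false

namespace Pool.Agent.H601R2.PCG

open Pool.Agent.Helper448.PWalk Pool.Agent.Helper448.PDec Relation

variable {V : Type} [DecidableEq V] {G : SimpleGraph V}

/-- Two `K₄`s sharing exactly a triangle. -/
def Shr (G : SimpleGraph V) (Q Q' : Finset V) : Prop :=
  G.IsNClique 4 Q ∧ G.IsNClique 4 Q' ∧ (Q ∩ Q').card = 3

theorem Shr.symm {Q Q' : Finset V} (h : Shr G Q Q') : Shr G Q' Q :=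
  ⟨h.2.1, h.1, by rw [Finset.inter_comm]; exact h.2.2⟩

/-- Sharing a triangle, inside a set of `K₄`s. -/
def ShrIn (G : SimpleGraph V) (S : Set (Finset V)) (Q Q' : Finset V) : Prop :=
  Q ∈ S ∧ Q' ∈ S ∧ Shr G Q Q'

theorem ShrIn.symm {S : Set (Finset V)} {Q Q' : Finset V} (h : ShrIn G S Q Q') :
    ShrIn G S Q' Q := ⟨h.2.1, h.1, h.2.2.symm⟩

theorem adj_of_clique {Q : Finset V} (h : G.IsNClique 4 Q) {x y : V} (hx : x ∈ Q) (hy : y ∈ Q)
    (hxy : x ≠ y) : G.Adj x y := h.1 (by exact_mod_cast hx) (by exact_mod_cast hy) hxy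

theorem k5_of_sep' (hG : NoK5 G) {Q Q' T : Finset V} (hQ : G.IsNClique 4 Q)
    (hQ' : G.IsNClique 4 Q') (hT : T.card = 3) (hTQ : T ⊆ Q) (hTQ' : T ⊆ Q') {v d : V}
    (hv : v ∈ Q) (hvT : v ∉ T) (hd : d ∈ Q') (hdT : d ∉ T) (hvd : v ≠ d)
    (hr : Rch G ((T : Set V))ᶜ v d) : False := by
  obtain ⟨a, b, c, hab, hac, hbc, hTe⟩ := Finset.card_eq_three.1 hT
  have ha : a ∈ T := by rw [hTe]; simp
  have hb : b ∈ T := by rw [hTe]; simp
  have hc : c ∈ T := by rw [hTe]; simp
  refine k5_of_sep hG (T := (T : Set V)) (a := a) (b := b) (c := c) (d := v) (e := d) (by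
    rw [hTe]; simp) (adj_of_clique hQ (hTQ ha) (hTQ hb) hab)
    (adj_of_clique hQ (hTQ hb) (hTQ hc) hbc) (adj_of_clique hQ (hTQ ha) (hTQ hc) hac) ?_ ?_ hvd hr
  · intro x hx
    have hx' : x ∈ T := by exact_mod_cast hx
    exact adj_of_clique hQ hv (hTQ hx') fun e => hvT (e ▸ hx')
  · intro x hx
    have hx' : x ∈ T := by exact_mod_cast hx
    exact adj_of_clique hQ' hd (hTQ' hx') fun e => hdT (e ▸ hx')

/-- A new `K₄` attached along a triangle brings a vertex which is new in the component. -/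
theorem sep (hG : NoK5 G) {S : Set (Finset V)} {Q1 Q' Q'' : Finset V} (h1 : Q1 ∈ S)
    (h' : Q' ∉ S) (hs : Shr G Q1 Q') (hch : ReflTransGen (ShrIn G S) Q1 Q'')
    (hQ'' : Q'' ∈ S) (hcl : G.IsNClique 4 Q'') {d : V} (hd : d ∈ Q') (hd1 : d ∉ Q1)
    (hd'' : d ∈ Q'') : False := by
  set T := Q1 ∩ Q' with hT
  have hdT : d ∉ T := fun h => hd1 (Finset.mem_inter.1 h).1
  have hTQ' : T ⊆ Q' := Finset.inter_subset_right
  have hTQ1 : T ⊆ Q1 := Finset.inter_subset_left
  have hQ'T : Q' = insert d T := by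
    symm
    apply Finset.eq_of_subset_of_card_le
    · intro x hx
      rcases Finset.mem_insert.1 hx with rfl | hx
      · exact hd
      · exact hTQ' hx
    · rw [Finset.card_insert_of_notMem hdT, hs.2.2, hs.2.1.2]
  have key : ∀ Q, ReflTransGen (ShrIn G S) Q Q'' → ∃ v ∈ Q, v ∉ T ∧ Rch G ((T : Set V))ᶜ v d := by
    intro Q hQ
    induction hQ using ReflTransGen.head_induction_on with
    | refl => exact ⟨d, hd'', hdT, Rch.refl (by simpa using hdT)⟩
    | head hstep _ ih =>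
      rename_i Qa Qn _hrest
      obtain ⟨v, hv, hvT, hr⟩ := ih
      by_cases hex : ∃ u ∈ Qa ∩ Qn, u ∉ T
      · obtain ⟨u, hu, huT⟩ := hex
        rw [Finset.mem_inter] at hu
        refine ⟨u, hu.1, huT, ?_⟩
        by_cases huv : u = v
        · rw [huv]; exact hr
        · exact (Rch.single (by simpa using huT) hr.left_mem
            (adj_of_clique hstep.2.2.2.1 hu.2 hv huv)).trans hr
      · exfalso
        push Not at hex
        have hsub : Qa ∩ Qn ⊆ T := hex
        have heq : Qa ∩ Qn = T := Finset.eq_of_subset_of_card_le hsub (by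
          rw [hstep.2.2.2.2, hs.2.2])
        have hTQn : T ⊆ Qn := by rw [← heq]; exact Finset.inter_subset_right
        have hvd : v ≠ d := by
          rintro rfl
          apply h'
          have : Q' = Qn := by
            rw [hQ'T]
            apply Finset.eq_of_subset_of_card_le
            · intro x hx
              rcases Finset.mem_insert.1 hx with rfl | hx
              · exact hv
              · exact hTQn hx
            · rw [Finset.card_insert_of_notMem hdT, hs.2.2, hstep.2.2.2.1.2]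
          rw [this]
          exact hstep.2.1
        exact k5_of_sep' hG hstep.2.2.2.1 hs.2.1 hs.2.2 hTQn hTQ' hv hvT hd hdT hvd hr
  obtain ⟨v, hv, hvT, hr⟩ := key Q1 hch
  exact k5_of_sep' hG hs.1 hs.2.1 hs.2.2 hTQ1 hTQ' hv hvT hd hdT (fun e => hd1 (e ▸ hv)) hr

theorem exists_exit_rtg {β : Type} {r : β → β → Prop} {S : Set β} {a b : β}
    (h : ReflTransGen r a b) (ha : a ∈ S) (hb : b ∉ S) : ∃ c ∈ S, ∃ d, d ∉ S ∧ r c d := by
  induction h with
  | refl => exact absurd ha hb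
  | tail _ hcd ih =>
    rename_i c d _hrest
    by_cases hc : c ∈ S
    · exact ⟨c, hc, d, hb, hcd⟩
    · exact ih hc

theorem rtg_symm {Q Q' : Finset V} (h : ReflTransGen (Shr G) Q Q') :
    ReflTransGen (Shr G) Q' Q := by
  induction h with
  | refl => exact ReflTransGen.refl
  | tail _ hbc ih => exact ReflTransGen.head hbc.symm ih

theorem extend [Finite V] (hG : NoK5 G) {α : Type} (c0 : Sym2 V → α)
    (R : Finset V → Set (Sym2 V → α))
    (hne : ∀ Q, G.IsNClique 4 Q → (R Q).Nonempty)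
    (hloc : ∀ Q (w w' : Sym2 V → α), (∀ x ∈ Q, ∀ y ∈ Q, x ≠ y → w s(x, y) = w' s(x, y)) →
      w ∈ R Q → w' ∈ R Q)
    (hcons : ∀ Q Q', Shr G Q Q' → ∀ w ∈ R Q, ∃ w' ∈ R Q', ∀ x ∈ Q ∩ Q', ∀ y ∈ Q ∩ Q', x ≠ y →
      w s(x, y) = w' s(x, y))
    (hdead : ∀ Q Q', G.IsNClique 4 Q → G.IsNClique 4 Q' → ¬ ReflTransGen (Shr G) Q Q' →
      ∀ x y, x ≠ y → x ∈ Q → y ∈ Q → x ∈ Q' → y ∈ Q' → ∀ w ∈ R Q, w s(x, y) = c0 s(x, y)) :
    ∃ w, ∀ Q, G.IsNClique 4 Q → w ∈ R Q := by
  classical
  let P : Set (Finset V) → Prop := fun S => (∀ Q ∈ S, G.IsNClique 4 Q) ∧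
    (∀ Q1 ∈ S, ∀ Q2 ∈ S, ReflTransGen (Shr G) Q1 Q2 → ReflTransGen (ShrIn G S) Q1 Q2) ∧
    ∃ w, ∀ Q ∈ S, w ∈ R Q
  have hrsymm : ∀ {Q Q' : Finset V}, ReflTransGen (Shr G) Q Q' → ReflTransGen (Shr G) Q' Q :=
    fun h => rtg_symm h
  have hP0 : P ∅ := ⟨by simp, by simp, by
    by_cases h : ∃ Q, G.IsNClique 4 Q
    · obtain ⟨Q, hQ⟩ := h
      obtain ⟨w, -⟩ := hne Q hQ
      exact ⟨w, by simp⟩
    · exact ⟨c0, by simp⟩⟩
  obtain ⟨S, hS⟩ := (Set.toFinite {S | P S}).exists_maximal ⟨∅, hP0⟩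
  obtain ⟨⟨hS1, hS2, w, hw⟩, hmax⟩ := hS
  refine ⟨w, fun Q hQ => ?_⟩
  by_cases hQS : Q ∈ S
  · exact hw Q hQS
  exfalso
  have hins : ∀ Q' ∉ S, P (insert Q' S) → False := fun Q' hQ' hP =>
    hQ' (hmax hP (Set.subset_insert _ _) (Set.mem_insert _ _))
  have hmono : ∀ (Q' : Finset V) {A B : Finset V}, ReflTransGen (ShrIn G S) A B →
      ReflTransGen (ShrIn G (insert Q' S)) A B := by
    intro Q' A B h
    induction h with
    | refl => exact ReflTransGen.refl
    | tail _ hbc ih => exact ih.tail ⟨Or.inr hbc.1, Or.inr hbc.2.1, hbc.2.2⟩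
  by_cases hcomp : ∃ Q0 ∈ S, ReflTransGen (Shr G) Q0 Q
  · -- the component of `Q` meets `S`
    obtain ⟨Q0, hQ0, hch⟩ := hcomp
    obtain ⟨Q1, hQ1, Q', hQ', hs⟩ := exists_exit_rtg hch hQ0 hQS
    obtain ⟨w', hw', hagree⟩ := hcons Q1 Q' hs w (hw Q1 hQ1)
    -- the new vertex
    have hcard : (Q' \ Q1).card = 1 := by
      have h1 := Finset.card_sdiff_add_card_inter Q' Q1
      rw [Finset.inter_comm, hs.2.2, hs.2.1.2] at h1
      omega
    obtain ⟨d, hd⟩ := Finset.card_eq_one.1 hcard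
    have hdm : d ∈ Q' \ Q1 := by rw [hd]; simp
    rw [Finset.mem_sdiff] at hdm
    have hT : ∀ x ∈ Q', x ≠ d → x ∈ Q1 ∩ Q' := by
      intro x hx hxd
      rw [Finset.mem_inter]
      refine ⟨?_, hx⟩
      by_contra hx1
      have : x ∈ Q' \ Q1 := Finset.mem_sdiff.2 ⟨hx, hx1⟩
      rw [hd, Finset.mem_singleton] at this
      exact hxd this
    set w'' : Sym2 V → α := fun e => if d ∈ e ∧ ∀ z ∈ e, z ∈ Q' then w' e else w e with hw''
    apply hins Q' hQ'
    refine ⟨?_, ?_, w'', ?_⟩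
    · intro A hA
      rcases hA with rfl | hA
      · exact hs.2.1
      · exact hS1 A hA
    · have hstep : ShrIn G (insert Q' S) Q1 Q' := ⟨Or.inr hQ1, Or.inl rfl, hs⟩
      intro A hA B hB hAB
      rcases hA with rfl | hA <;> rcases hB with rfl | hB
      · exact ReflTransGen.refl
      · have h1 : ReflTransGen (Shr G) Q1 B := ReflTransGen.head hs hAB
        exact ReflTransGen.head hstep.symm (hmono _ (hS2 Q1 hQ1 B hB h1))
      · have h1 : ReflTransGen (Shr G) A Q1 := hAB.tail hs.symm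
        exact (hmono _ (hS2 A hA Q1 hQ1 h1)).tail hstep
      · exact hmono _ (hS2 A hA B hB hAB)
    · intro A hA
      rcases hA with rfl | hA
      · refine hloc A w' w'' ?_ hw'
        intro x hx y hy hxy
        simp only [hw'']
        by_cases hc : d ∈ s(x, y) ∧ ∀ z ∈ s(x, y), z ∈ A
        · rw [if_pos hc]
        · rw [if_neg hc]
          have hdn : d ∉ s(x, y) := fun hdm' => hc ⟨hdm', fun z hz => by
            rcases Sym2.mem_iff.1 hz with rfl | rfl <;> assumption⟩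
          rw [Sym2.mem_iff] at hdn
          push Not at hdn
          exact (hagree x (hT x hx hdn.1.symm) y (hT y hy hdn.2.symm) hxy).symm
      · refine hloc A w w'' ?_ (hw A hA)
        intro x hx y hy hxy
        simp only [hw'']
        by_cases hc : d ∈ s(x, y) ∧ ∀ z ∈ s(x, y), z ∈ Q'
        · rw [if_pos hc]
          have hdA : d ∈ A := by
            rcases Sym2.mem_iff.1 hc.1 with rfl | rfl <;> assumption
          have hxQ : x ∈ Q' := hc.2 x (Sym2.mem_mk_left _ _)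
          have hyQ : y ∈ Q' := hc.2 y (Sym2.mem_mk_right _ _)
          by_cases hsame : ReflTransGen (Shr G) Q1 A
          · exact (sep hG hQ1 hQ' hs (hS2 Q1 hQ1 A hA hsame) hA (hS1 A hA) hdm.1 hdm.2 hdA).elim
          · have hn1 : ¬ ReflTransGen (Shr G) Q' A := fun h => hsame (ReflTransGen.head hs h)
            have hn2 : ¬ ReflTransGen (Shr G) A Q' := fun h => hn1 (hrsymm h)
            rw [hdead A Q' (hS1 A hA) hs.2.1 hn2 x y hxy hx hy hxQ hyQ w (hw A hA),
              hdead Q' A hs.2.1 (hS1 A hA) hn1 x y hxy hxQ hyQ hx hy w' hw']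
        · rw [if_neg hc]
  · -- a new component
    push Not at hcomp
    obtain ⟨w', hw'⟩ := hne Q hQ
    set w'' : Sym2 V → α := fun e => if ∀ z ∈ e, z ∈ Q then w' e else w e with hw''
    apply hins Q hQS
    refine ⟨?_, ?_, w'', ?_⟩
    · intro A hA
      rcases hA with rfl | hA
      · exact hQ
      · exact hS1 A hA
    · intro A hA B hB hAB
      rcases hA with rfl | hA <;> rcases hB with rfl | hB
      · exact ReflTransGen.refl
      · exact absurd (hrsymm hAB) (hcomp B hB)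
      · exact absurd hAB (hcomp A hA)
      · exact hmono _ (hS2 A hA B hB hAB)
    · intro A hA
      rcases hA with rfl | hA
      · refine hloc A w' w'' ?_ hw'
        intro x hx y hy hxy
        simp only [hw'']
        rw [if_pos]
        intro z hz
        rcases Sym2.mem_iff.1 hz with rfl | rfl <;> assumption
      · refine hloc A w w'' ?_ (hw A hA)
        intro x hx y hy hxy
        simp only [hw'']
        by_cases hc : ∀ z ∈ s(x, y), z ∈ Q
        · rw [if_pos hc]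
          have hxQ : x ∈ Q := hc x (Sym2.mem_mk_left _ _)
          have hyQ : y ∈ Q := hc y (Sym2.mem_mk_right _ _)
          have hn2 : ¬ ReflTransGen (Shr G) A Q := hcomp A hA
          have hn1 : ¬ ReflTransGen (Shr G) Q A := fun h => hn2 (hrsymm h)
          rw [hdead A Q (hS1 A hA) hQ hn2 x y hxy hx hy hxQ hyQ w (hw A hA),
            hdead Q A hQ (hS1 A hA) hn1 x y hxy hxQ hyQ hx hy w' hw']
        · rw [if_neg hc]

end Pool.Agent.H601R2.PCG
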