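import Pool.Agent.H601R2.PCG.Defs

/-!
# Clique graphs and good families (a form of the theorem of Roberts and Spencer)
-/

set_option autoImplicit false

namespace Pool.Agent.H601R2.PCG

/-- Every complete set of a finite graph is contained in a maximal one. -/
theorem exists_maxComplete {W : Type} [Finite W] (G : SimpleGraph W) (s : Set W)
    (hs : G.IsClique s) : ∃ t, IsMaxComplete G t ∧ s ⊆ t := by
  classical
  have hfin : {t : Set W | G.IsClique t ∧ s ⊆ t}.Finite := Set.toFinite _
  obtain ⟨t, ht⟩ := hfin.exists_maximal ⟨s, hs, subset_rfl⟩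
  refine ⟨t, ⟨ht.1.1, fun u hu htu => ?_⟩, ht.1.2⟩
  exact (ht.2 ⟨hu, ht.1.2.trans htu⟩ htu).antisymm htu

theorem good_of_isCliqueGraph {V : Type} {H : SimpleGraph V} (h : IsCliqueGraph H) :
    Nonempty V ∧ ∃ K, Good H K := by
  obtain ⟨W, hW, G, ⟨φ⟩⟩ := h
  refine ⟨?_, fun a b => {c | ((φ a : Set W) ∩ (φ b : Set W)) ⊆ (φ c : Set W)}, ?_⟩
  · obtain ⟨t, ht, -⟩ := exists_maxComplete G ∅ (by simp)
    exact ⟨φ.symm ⟨t, ht⟩⟩
  have hadj : ∀ a b, H.Adj a b ↔ φ a ≠ φ b ∧ ((φ a : Set W) ∩ (φ b : Set W)).Nonempty := by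
    intro a b
    rw [← φ.map_adj_iff]
    rfl
  constructor
  · intro a b
    simp only [Set.inter_comm]
  · intro a b _
    exact Set.inter_subset_left
  · intro a b hab x hx y hy hxy
    rw [hadj]
    refine ⟨fun h => hxy (φ.injective h), ?_⟩
    obtain ⟨v, hv⟩ := ((hadj a b).1 hab).2
    exact ⟨v, hx hv, hy hv⟩
  · intro a b x y _ hx hy _ z hz
    exact (Set.subset_inter hx hy).trans hz
  · intro a b c hab hbc hac
    have hcl : ∀ x, G.IsClique (φ x : Set W) := fun x => (φ x).2.1
    have hu : G.IsClique (((φ a : Set W) ∩ (φ b : Set W)) ∪ ((φ b : Set W) ∩ (φ c : Set W)) ∪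
        ((φ a : Set W) ∩ (φ c : Set W))) := by
      intro x hx y hy hxy
      rcases hx with (hx | hx) | hx <;> rcases hy with (hy | hy) | hy
      · exact hcl a hx.1 hy.1 hxy
      · exact hcl b hx.2 hy.1 hxy
      · exact hcl a hx.1 hy.1 hxy
      · exact hcl b hx.1 hy.2 hxy
      · exact hcl b hx.1 hy.1 hxy
      · exact hcl c hx.2 hy.2 hxy
      · exact hcl a hx.1 hy.1 hxy
      · exact hcl c hx.2 hy.2 hxy
      · exact hcl a hx.1 hy.1 hxy
    obtain ⟨t, ht, hs⟩ := exists_maxComplete G _ hu
    refine ⟨φ.symm ⟨t, ht⟩, ?_, ?_, ?_⟩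
    · change _ ⊆ ((φ (φ.symm ⟨t, ht⟩)) : Set W)
      rw [φ.apply_symm_apply]
      exact fun x hx => hs (Or.inl (Or.inl hx))
    · change _ ⊆ ((φ (φ.symm ⟨t, ht⟩)) : Set W)
      rw [φ.apply_symm_apply]
      exact fun x hx => hs (Or.inl (Or.inr hx))
    · change _ ⊆ ((φ (φ.symm ⟨t, ht⟩)) : Set W)
      rw [φ.apply_symm_apply]
      exact fun x hx => hs (Or.inr hx)

section

variable {V : Type} {H : SimpleGraph V} {K : V → V → Set V}

theorem Good.right (h : Good H K) {a b : V} (hab : H.Adj a b) : b ∈ K a b := by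
  rw [h.symm]; exact h.left b a hab.symm

/-- the member sets: singletons and the sets `K a b` -/
def mem (K : V → V → Set V) : V ⊕ (V × V) → Set V
  | Sum.inl v => {v}
  | Sum.inr e => K e.1 e.2

/-- Indices of the members which are used. -/
def Idx (H : SimpleGraph V) : Type := {x : V ⊕ (V × V) // ∀ e, x = Sum.inr e → H.Adj e.1 e.2}

instance [Finite V] : Finite (Idx H) := by unfold Idx; infer_instance

theorem mem_complete (h : Good H K) (x : Idx H) : H.IsClique (mem K x.1) := by
  obtain ⟨x, hx⟩ := x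
  cases x with
  | inl v => simp [mem]
  | inr e => exact h.complete _ _ (hx e rfl)

theorem mem_mono (h : Good H K) (x : Idx H) {a b : V} (ha : a ∈ mem K x.1) (hb : b ∈ mem K x.1)
    (hab : a ≠ b) : K a b ⊆ mem K x.1 := by
  obtain ⟨x, hx⟩ := x
  cases x with
  | inl v =>
    rw [mem, Set.mem_singleton_iff] at ha hb
    exact absurd (ha.trans hb.symm) hab
  | inr e => exact h.mono _ _ _ _ (hx e rfl) ha hb hab

theorem mem_nonempty (h : Good H K) (x : Idx H) : (mem K x.1).Nonempty := by
  obtain ⟨x, hx⟩ := x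
  cases x with
  | inl v => exact ⟨v, rfl⟩
  | inr e => exact ⟨_, h.left _ _ (hx e rfl)⟩

/-- Helly property: pairwise intersecting members have a common vertex. -/
theorem helly [Nonempty V] (h : Good H K) : ∀ (n : ℕ) (s : Finset (Idx H)), s.card = n →
    (∀ x ∈ s, ∀ y ∈ s, (mem K x.1 ∩ mem K y.1).Nonempty) → ∃ v, ∀ x ∈ s, v ∈ mem K x.1 := by
  classical
  intro n
  induction n using Nat.strong_induction_on with
  | _ n ih =>
    intro s hn hs
    rcases lt_or_ge s.card 3 with hlt | hge
    · -- at most two members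
      rcases s.eq_empty_or_nonempty with rfl | ⟨x, hx⟩
      · exact ⟨Classical.arbitrary V, by simp⟩
      by_cases hy : ∃ y ∈ s, y ≠ x
      · obtain ⟨y, hy, hyx⟩ := hy
        obtain ⟨v, hv1, hv2⟩ := hs x hx y hy
        refine ⟨v, fun z hz => ?_⟩
        have : z = x ∨ z = y := by
          by_contra hcon
          push Not at hcon
          have h3 : ({x, y, z} : Finset (Idx H)).card = 3 := by
            rw [Finset.card_eq_three]
            exact ⟨x, y, z, hyx.symm, hcon.1.symm, hcon.2.symm, rfl⟩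
          have h4 : ({x, y, z} : Finset (Idx H)) ⊆ s := by
            intro w hw
            simp only [Finset.mem_insert, Finset.mem_singleton] at hw
            rcases hw with rfl | rfl | rfl <;> assumption
          have := Finset.card_le_card h4
          omega
        rcases this with rfl | rfl <;> assumption
      · push Not at hy
        obtain ⟨v, hv⟩ := mem_nonempty h x
        exact ⟨v, fun z hz => by rw [hy z hz]; exact hv⟩
    · obtain ⟨t, hts, htc⟩ := Finset.exists_subset_card_eq hge
      obtain ⟨x1, x2, x3, h12, h13, h23, rfl⟩ := Finset.card_eq_three.1 htc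
      have hx1 : x1 ∈ s := hts (by simp)
      have hx2 : x2 ∈ s := hts (by simp)
      have hx3 : x3 ∈ s := hts (by simp)
      have key : ∀ x ∈ s, ∃ v, ∀ z ∈ s, z ≠ x → v ∈ mem K z.1 := by
        intro x hx
        obtain ⟨v, hv⟩ := ih (s.erase x).card (by
          rw [← hn]; exact Finset.card_erase_lt_of_mem hx) (s.erase x) rfl
          (fun a ha b hb => hs a (Finset.mem_of_mem_erase ha) b (Finset.mem_of_mem_erase hb))
        exact ⟨v, fun z hz hzx => hv z (Finset.mem_erase.2 ⟨hzx, hz⟩)⟩
      obtain ⟨v1, hv1⟩ := key x1 hx1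
      obtain ⟨v2, hv2⟩ := key x2 hx2
      obtain ⟨v3, hv3⟩ := key x3 hx3
      -- every member contains two of the three vertices
      have two : ∀ z ∈ s, (v1 ∈ mem K z.1 ∧ v2 ∈ mem K z.1) ∨ (v2 ∈ mem K z.1 ∧ v3 ∈ mem K z.1) ∨
          (v1 ∈ mem K z.1 ∧ v3 ∈ mem K z.1) := by
        intro z hz
        by_cases e1 : z = x1
        · subst e1
          exact Or.inr (Or.inl ⟨hv2 z hz h12, hv3 z hz h13⟩)
        by_cases e2 : z = x2
        · subst e2
          exact Or.inr (Or.inr ⟨hv1 z hz e1, hv3 z hz h23⟩)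
        exact Or.inl ⟨hv1 z hz e1, hv2 z hz e2⟩
      by_cases e12 : v1 = v2
      · refine ⟨v1, fun z hz => ?_⟩
        by_cases e1 : z = x1
        · subst e1; rw [e12]; exact hv2 z hz h12
        · exact hv1 z hz e1
      by_cases e13 : v1 = v3
      · refine ⟨v1, fun z hz => ?_⟩
        by_cases e1 : z = x1
        · subst e1; rw [e13]; exact hv3 z hz h13
        · exact hv1 z hz e1
      by_cases e23 : v2 = v3
      · refine ⟨v2, fun z hz => ?_⟩
        by_cases e1 : z = x2
        · subst e1; rw [e23]; exact hv3 z hz h23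
        · exact hv2 z hz e1
      by_cases a12 : H.Adj v1 v2
      · by_cases a23 : H.Adj v2 v3
        · by_cases a13 : H.Adj v1 v3
          · obtain ⟨v, w12, w23, w13⟩ := h.tri v1 v2 v3 a12 a23 a13
            refine ⟨v, fun z hz => ?_⟩
            rcases two z hz with ⟨p, q⟩ | ⟨p, q⟩ | ⟨p, q⟩
            · exact mem_mono h z p q e12 w12
            · exact mem_mono h z p q e23 w23
            · exact mem_mono h z p q e13 w13
          · refine ⟨v2, fun z hz => ?_⟩
            rcases two z hz with ⟨p, q⟩ | ⟨p, q⟩ | ⟨p, q⟩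
            · exact q
            · exact p
            · exact absurd (mem_complete h z p q e13) a13
        · refine ⟨v1, fun z hz => ?_⟩
          rcases two z hz with ⟨p, q⟩ | ⟨p, q⟩ | ⟨p, q⟩
          · exact p
          · exact absurd (mem_complete h z p q e23) a23
          · exact p
      · refine ⟨v3, fun z hz => ?_⟩
        rcases two z hz with ⟨p, q⟩ | ⟨p, q⟩ | ⟨p, q⟩
        · exact absurd (mem_complete h z p q e12) a12
        · exact q
        · exact q

/-- the intersection graph of the members -/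
def interGraph (H : SimpleGraph V) (K : V → V → Set V) : SimpleGraph (Idx H) where
  Adj x y := x ≠ y ∧ (mem K x.1 ∩ mem K y.1).Nonempty
  symm := ⟨fun _ _ h => ⟨h.1.symm, by rw [Set.inter_comm]; exact h.2⟩⟩
  loopless := ⟨fun _ h => h.1 rfl⟩

/-- the index of a vertex -/
def vx (H : SimpleGraph V) (v : V) : Idx H := ⟨Sum.inl v, fun e he => by cases he⟩

theorem mem_vx (v : V) : mem K (vx H v).1 = {v} := rfl

/-- the members through a vertex -/
def star (H : SimpleGraph V) (K : V → V → Set V) (v : V) : Set (Idx H) := {x | v ∈ mem K x.1}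

theorem star_max (v : V) : IsMaxComplete (interGraph H K) (star H K v) := by
  constructor
  · intro x hx y hy hxy
    exact ⟨hxy, v, hx, hy⟩
  · intro t ht hst
    apply Set.Subset.antisymm _ hst
    intro x hx
    by_cases hxv : x = vx H v
    · rw [hxv]; exact rfl
    · obtain ⟨w, hw1, hw2⟩ := (ht (hst (show vx H v ∈ star H K v from rfl)) hx (Ne.symm hxv)).2
      rw [mem_vx, Set.mem_singleton_iff] at hw1
      rw [hw1] at hw2
      exact hw2

theorem isCliqueGraph_of_good [Finite V] [Nonempty V] (h : Good H K) : IsCliqueGraph H := by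
  classical
  refine ⟨Idx H, inferInstance, interGraph H K, ⟨?_⟩⟩
  have hinj : Function.Injective fun v => (⟨star H K v, star_max v⟩ :
      {s : Set (Idx H) // IsMaxComplete (interGraph H K) s}) := by
    intro u v huv
    have h1 : star H K u = star H K v := congrArg Subtype.val huv
    have h2 : vx H u ∈ star H K v := by rw [← h1]; exact rfl
    exact (Set.mem_singleton_iff.1 (show v ∈ ({u} : Set V) from h2)).symm
  have hsurj : Function.Surjective fun v => (⟨star H K v, star_max v⟩ :
      {s : Set (Idx H) // IsMaxComplete (interGraph H K) s}) := by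
    rintro ⟨s, hs⟩
    have hfin : s.Finite := Set.toFinite _
    obtain ⟨v, hv⟩ := helly h _ hfin.toFinset rfl (by
      intro x hx y hy
      rw [Set.Finite.mem_toFinset] at hx hy
      by_cases hxy : x = y
      · subst hxy
        rw [Set.inter_self]
        exact mem_nonempty h x
      · exact (hs.1 hx hy hxy).2)
    refine ⟨v, Subtype.ext ?_⟩
    refine hs.2 _ (star_max v).1 fun x hx => hv x (hfin.mem_toFinset.2 hx)
  refine ⟨Equiv.ofBijective _ ⟨hinj, hsurj⟩, ?_⟩
  intro u v
  change (_ ≠ _ ∧ (star H K u ∩ star H K v).Nonempty) ↔ H.Adj u v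
  constructor
  · rintro ⟨hne, x, hx1, hx2⟩
    have huv : u ≠ v := fun e => hne (by rw [e])
    exact mem_complete h x hx1 hx2 huv
  · intro huv
    refine ⟨fun e => huv.ne (hinj e), ⟨Sum.inr (u, v), ?_⟩, h.left u v huv, h.right huv⟩
    intro e he
    rw [← Sum.inr.inj he]
    exact huv

end

theorem isCliqueGraph_iff {V : Type} [Finite V] (H : SimpleGraph V) :
    IsCliqueGraph H ↔ Nonempty V ∧ ∃ K, Good H K := by
  constructor
  · exact good_of_isCliqueGraph
  · rintro ⟨hV, K, hK⟩
    exact isCliqueGraph_of_good hK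

end Pool.Agent.H601R2.PCG
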