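import Pool.Agent.H601R2.PCG.KFun
import Pool.Agent.Helper448.PDec

/-!
# The forest of `K₄`s sharing triangles in a graph without `K₅` minor
-/

set_option autoImplicit false

namespace Pool.Agent.H601R2.PCG

open Pool.Agent.Helper448.PWalk Pool.Agent.Helper448.PDec

variable {V : Type} {G : SimpleGraph V}

/-- Two adjacent-connected vertices outside a triangle and complete to it give a `K₅` minor. -/
theorem k5_of_sep (hG : NoK5 G) {T : Set V} {a b c d e : V} (hT : T = {a, b, c})
    (hab : G.Adj a b) (hbc : G.Adj b c) (hac : G.Adj a c)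
    (hd : ∀ x ∈ T, G.Adj d x) (he : ∀ x ∈ T, G.Adj e x) (hde : d ≠ e)
    (hr : Rch G Tᶜ d e) : False := by
  classical
  have heT : e ∉ T := fun h => (he e h).ne rfl
  have hdT : d ∉ T := fun h => (hd d h).ne rfl
  have haT : a ∈ T := by rw [hT]; simp
  have hbT : b ∈ T := by rw [hT]; simp
  have hcT : c ∈ T := by rw [hT]; simp
  obtain ⟨n, hn⟩ := hr
  obtain ⟨y, z, i, j, -, h1, h2, h3, h4, -⟩ := hn.exists_exit (Y := {e}ᶜ) (by simpa using hde)
    (by simp)
  have hz : z = e := by simpa using h4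
  subst hz
  -- the component of `d` avoiding `T` and `e`
  set X : Set V := {v | Rch G (Tᶜ ∩ {z}ᶜ) d v} with hX
  have hXsub : ∀ v ∈ X, v ∉ T ∧ v ≠ z := fun v hv => by
    have := hv.right_mem
    exact ⟨this.1, this.2⟩
  have hdX : d ∈ X := Rch.refl ⟨hdT, by simpa using hde⟩
  have hyX : y ∈ X := ⟨i, h1⟩
  have hconn : ∀ u ∈ X, ∀ v ∈ X, Rch G X u v := by
    intro u hu v hv
    exact hu.to_comp.symm.trans hv.to_comp
  apply hG
  refine ⟨![{a}, {b}, {c}, {z}, X], ?_, ?_, ?_, ?_⟩
  · intro k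
    fin_cases k
    · exact ⟨a, rfl⟩
    · exact ⟨b, rfl⟩
    · exact ⟨c, rfl⟩
    · exact ⟨z, rfl⟩
    · exact ⟨d, hdX⟩
  · have hs : ∀ x : V, ∀ u ∈ ({x} : Set V), ∀ v ∈ ({x} : Set V), Rch G {x} u v := by
      rintro x u rfl v rfl
      exact Rch.refl rfl
    intro k
    fin_cases k
    · exact hs a
    · exact hs b
    · exact hs c
    · exact hs z
    · exact hconn
  · have key : ∀ k l : Fin 5, k < l → Disjoint ((![{a}, {b}, {c}, {z}, X] : Fin 5 → Set V) k)
        ((![{a}, {b}, {c}, {z}, X] : Fin 5 → Set V) l) := by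
      intro k l hkl
      fin_cases k <;> fin_cases l <;> first
        | exact absurd hkl (by decide)
        | skip
      · exact Set.disjoint_singleton.2 hab.ne
      · exact Set.disjoint_singleton.2 hac.ne
      · exact Set.disjoint_singleton.2 (he a haT).ne'
      · exact Set.disjoint_singleton_left.2 fun h => (hXsub a h).1 haT
      · exact Set.disjoint_singleton.2 hbc.ne
      · exact Set.disjoint_singleton.2 (he b hbT).ne'
      · exact Set.disjoint_singleton_left.2 fun h => (hXsub b h).1 hbT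
      · exact Set.disjoint_singleton.2 (he c hcT).ne'
      · exact Set.disjoint_singleton_left.2 fun h => (hXsub c h).1 hcT
      · exact Set.disjoint_singleton_left.2 fun h => (hXsub z h).2 rfl
    intro k l hkl
    rcases lt_or_gt_of_ne hkl with h | h
    · exact key k l h
    · exact (key l k h).symm
  · have key : ∀ k l : Fin 5, k < l → ∃ u ∈ ((![{a}, {b}, {c}, {z}, X] : Fin 5 → Set V) k),
        ∃ v ∈ ((![{a}, {b}, {c}, {z}, X] : Fin 5 → Set V) l), G.Adj u v := by
      intro k l hkl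
      fin_cases k <;> fin_cases l <;> first
        | exact absurd hkl (by decide)
        | skip
      · exact ⟨a, rfl, b, rfl, hab⟩
      · exact ⟨a, rfl, c, rfl, hac⟩
      · exact ⟨a, rfl, z, rfl, (he a haT).symm⟩
      · exact ⟨a, rfl, d, hdX, (hd a haT).symm⟩
      · exact ⟨b, rfl, c, rfl, hbc⟩
      · exact ⟨b, rfl, z, rfl, (he b hbT).symm⟩
      · exact ⟨b, rfl, d, hdX, (hd b hbT).symm⟩
      · exact ⟨c, rfl, z, rfl, (he c hcT).symm⟩
      · exact ⟨c, rfl, d, hdX, (hd c hcT).symm⟩
      · exact ⟨z, rfl, y, hyX, h2.symm⟩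
    intro k l hkl
    rcases lt_or_gt_of_ne hkl with h | h
    · exact key k l h
    · obtain ⟨u, hu, v, hv, huv⟩ := key l k h
      exact ⟨v, hv, u, hu, huv.symm⟩

end Pool.Agent.H601R2.PCG
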